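import Pool.Statements.S00591
import Pool.Agent.P8H56.CT.Main

set_option autoImplicit false
open Pool Pool.MP_02e21a_al

namespace Pool.Agent.S00591

/-- For every finite set P of odd primes, the group generated by all class transpositions of ℤ with moduli having only prime factors in P or 2 is finitely presented.

Proof. Let `S = P ∪ {2}`. The group `G` acts on the directed set `X` of all bases: multisets of maps
`ℤ → ℤ` which can be split to all residue classes modulo some `M`, where splitting replaces a map `a`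
by the `p` maps `a (p z + r)`, `p ∈ S`. For large `N` the members of `X` of size at most `N` form a
connected and simply connected subset (every cocycle on it extends to all of `X`), on which `G` acts
with a finite fundamental domain, the partitions of `ℤ` obtained by successive splittings, and finite
stabilisers. So `G` is finitely presented. -/
theorem result :
  ∀ P : Finset ℕ, (∀ p ∈ P, Nat.Prime p ∧ p ≠ 2) →
    ∃ (n : ℕ) (φ : FreeGroup (Fin n) →* ↥(Subgroup.closure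
        {σ : Equiv.Perm ℤ | ∃ r₁ m₁ r₂ m₂ : ℤ,
          0 < m₁ ∧ 0 < m₂ ∧ 0 ≤ r₁ ∧ r₁ < m₁ ∧ 0 ≤ r₂ ∧ r₂ < m₂ ∧
          (∀ k : ℤ, ¬ (k % m₁ = r₁ ∧ k % m₂ = r₂)) ∧
          (∀ p ∈ Nat.primeFactors m₁.natAbs, p = 2 ∨ p ∈ P) ∧
          (∀ p ∈ Nat.primeFactors m₂.natAbs, p = 2 ∨ p ∈ P) ∧
          ∀ k : ℤ, σ k =
            if k % m₁ = r₁ then (m₂ * k + m₁ * r₂ - m₂ * r₁) / m₁
            else if k % m₂ = r₂ then (m₁ * k + m₂ * r₁ - m₁ * r₂) / m₂
            else k})),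
      Function.Surjective φ ∧
        ∃ R : Finset (FreeGroup (Fin n)),
          φ.ker = Subgroup.normalClosure (R : Set (FreeGroup (Fin n))) := by
  intro P hP
  have hS : ∀ p ∈ insert 2 P, Nat.Prime p := by
    intro p hp
    rcases Finset.mem_insert.1 hp with rfl | hp
    · exact Nat.prime_two
    · exact (hP p hp).1
  have hmo : ∀ m : ℤ, P8H56.CT.Mo (insert 2 P) m ↔
      (0 < m ∧ ∀ p ∈ Nat.primeFactors m.natAbs, p = 2 ∨ p ∈ P) := by
    intro m
    unfold P8H56.CT.Mo P8H56.CT.Sm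
    constructor
    · rintro ⟨h0, h1, h2⟩
      refine ⟨h0, fun p hp => ?_⟩
      have e : m.natAbs = m.toNat := by omega
      rw [e] at hp
      exact Finset.mem_insert.1 (h2 p (Nat.prime_of_mem_primeFactors hp)
        (Nat.dvd_of_mem_primeFactors hp))
    · rintro ⟨h0, h1⟩
      refine ⟨h0, by omega, fun p hp hd => ?_⟩
      have e : m.natAbs = m.toNat := by omega
      rw [e] at h1
      exact Finset.mem_insert.2 (h1 p (Nat.mem_primeFactors.2 ⟨hp, hd, by omega⟩))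
  have hset : {σ : Equiv.Perm ℤ | Helper111.CT.IsCT (P8H56.CT.Mo (insert 2 P)) σ} =
      {σ : Equiv.Perm ℤ | ∃ r₁ m₁ r₂ m₂ : ℤ,
          0 < m₁ ∧ 0 < m₂ ∧ 0 ≤ r₁ ∧ r₁ < m₁ ∧ 0 ≤ r₂ ∧ r₂ < m₂ ∧
          (∀ k : ℤ, ¬ (k % m₁ = r₁ ∧ k % m₂ = r₂)) ∧
          (∀ p ∈ Nat.primeFactors m₁.natAbs, p = 2 ∨ p ∈ P) ∧
          (∀ p ∈ Nat.primeFactors m₂.natAbs, p = 2 ∨ p ∈ P) ∧
          ∀ k : ℤ, σ k =
            if k % m₁ = r₁ then (m₂ * k + m₁ * r₂ - m₂ * r₁) / m₁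
            else if k % m₂ = r₂ then (m₁ * k + m₂ * r₁ - m₁ * r₂) / m₂
            else k} := by
    have hmod : ∀ n r m : ℤ, 0 ≤ r → r < m → (m ∣ n - r ↔ n % m = r) := by
      intro n r m h0 h1
      constructor
      · intro h
        have h2 : r % m = n % m := (Int.modEq_iff_dvd).2 h
        rw [← h2, Int.emod_eq_of_lt h0 h1]
      · intro h
        have h2 : r ≡ n [ZMOD m] := by
          unfold Int.ModEq
          rw [h, Int.emod_eq_of_lt h0 h1]
        exact h2.dvd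
    ext σ
    constructor
    · rintro ⟨r₁, m₁, r₂, m₂, h1, h2, h3, h4, h5, h6, h7, h8, h9⟩
      rw [hmo] at h5 h6
      refine ⟨r₁, m₁, r₂, m₂, h5.1, h6.1, h1, h2, h3, h4, fun k hk => h7 k
        ⟨(hmod k r₁ m₁ h1 h2).2 hk.1, (hmod k r₂ m₂ h3 h4).2 hk.2⟩, h5.2, h6.2, fun k => ?_⟩
      split_ifs with c1 c2
      · obtain ⟨j, hj⟩ := (hmod k r₁ m₁ h1 h2).2 c1
        have e : k = r₁ + m₁ * j := by linarith
        rw [e, (h8 j).1, show m₂ * (r₁ + m₁ * j) + m₁ * r₂ - m₂ * r₁ = m₁ * (r₂ + m₂ * j) by ring,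
          Int.mul_ediv_cancel_left _ h5.1.ne']
      · obtain ⟨j, hj⟩ := (hmod k r₂ m₂ h3 h4).2 c2
        have e : k = r₂ + m₂ * j := by linarith
        rw [e, (h8 j).2, show m₁ * (r₂ + m₂ * j) + m₂ * r₁ - m₁ * r₂ = m₂ * (r₁ + m₁ * j) by ring,
          Int.mul_ediv_cancel_left _ h6.1.ne']
      · exact h9 k (fun h => c1 ((hmod k r₁ m₁ h1 h2).1 h)) (fun h => c2 ((hmod k r₂ m₂ h3 h4).1 h))
    · rintro ⟨r₁, m₁, r₂, m₂, p1, p2, h1, h2, h3, h4, h5, h6, h7, h8⟩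
      refine ⟨r₁, m₁, r₂, m₂, h1, h2, h3, h4, (hmo m₁).2 ⟨p1, h6⟩, (hmo m₂).2 ⟨p2, h7⟩,
        fun n hn => h5 n ⟨(hmod n r₁ m₁ h1 h2).1 hn.1, (hmod n r₂ m₂ h3 h4).1 hn.2⟩, ?_, ?_⟩
      · intro k
        have c1 : (r₁ + m₁ * k) % m₁ = r₁ := by
          rw [Int.add_mul_emod_self_left, Int.emod_eq_of_lt h1 h2]
        have c2 : (r₂ + m₂ * k) % m₂ = r₂ := by
          rw [Int.add_mul_emod_self_left, Int.emod_eq_of_lt h3 h4]
        constructor
        · rw [h8, if_pos c1,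
            show m₂ * (r₁ + m₁ * k) + m₁ * r₂ - m₂ * r₁ = m₁ * (r₂ + m₂ * k) by ring,
            Int.mul_ediv_cancel_left _ p1.ne']
        · rw [h8, if_neg (fun h => h5 _ ⟨h, c2⟩), if_pos c2,
            show m₁ * (r₂ + m₂ * k) + m₂ * r₁ - m₁ * r₂ = m₂ * (r₁ + m₁ * k) by ring,
            Int.mul_ediv_cancel_left _ p2.ne']
      · intro n a1 a2
        rw [h8, if_neg (fun h => a1 ((hmod n r₁ m₁ h1 h2).2 h)),
          if_neg (fun h => a2 ((hmod n r₂ m₂ h3 h4).2 h))]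
  have hfp := P8H56.CT.fp hS (Finset.mem_insert_self 2 P)
  unfold Helper111.CT.CTg at hfp
  rw [hset] at hfp
  obtain ⟨n, φ, hφ, R, hR, hk⟩ := hfp.out
  exact ⟨n, φ, hφ, hR.toFinset, by rw [Set.Finite.coe_toFinset]; exact hk.symm⟩

end Pool.Agent.S00591
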