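import Pool.Statements.S00905
import Mathlib

set_option autoImplicit false
open Pool Pool.MP_207b86_al

namespace Pool.Agent.S00905

open Monoid

/-- the symmetric group of degree three -/
abbrev S3 : Type := Equiv.Perm (Fin 3)

/-- the countable power of the symmetric group of degree three -/
abbrev GG : Type := ℕ → S3

/-- the value of the word `w` at `g` -/
abbrev ev (w : Coprod GG (FreeGroup Unit)) (g : GG) : GG :=
  Coprod.lift (MonoidHom.id GG) (FreeGroup.lift (fun _ => g)) w

/-- the generating family of open sets of the Zariski topology -/
abbrev gens : Set (Set GG) :=
  {U : Set GG | ∃ w : Coprod GG (FreeGroup Unit),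
          U = {g : GG | Coprod.lift (MonoidHom.id GG) (FreeGroup.lift (fun _ => g)) w = 1}ᶜ}

lemma ev_mul (v w : Coprod GG (FreeGroup Unit)) (g : GG) : ev (v * w) g = ev v g * ev w g :=
  map_mul _ _ _

lemma ev_inv (v : Coprod GG (FreeGroup Unit)) (g : GG) : ev v⁻¹ g = (ev v g)⁻¹ :=
  map_inv _ _

lemma ev_inl (a g : GG) : ev (Coprod.inl a) g = a := by
  simp [ev]

lemma ev_var (g : GG) : ev (Coprod.inr (FreeGroup.of ())) g = g := by
  simp [ev]

lemma center_S3 : ∀ a : S3, (∀ b : S3, a * b = b * a) → a = 1 := by decide

/-- The Zariski topology of the power of `S3` is the product topology. -/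
lemma zariski_eq : TopologicalSpace.generateFrom gens =
    @Pi.topologicalSpace ℕ (fun _ => S3) (fun _ => ⊥) := by
  letI : TopologicalSpace S3 := ⊥
  haveI : DiscreteTopology S3 := ⟨rfl⟩
  haveI : IsTopologicalGroup S3 := inferInstance
  apply le_antisymm
  · -- the coordinates are continuous for the Zariski topology
    refine le_iInf fun i => ?_
    rw [← continuous_iff_le_induced]
    letI T : TopologicalSpace GG := TopologicalSpace.generateFrom gens
    have hE : ∀ w : Coprod GG (FreeGroup Unit), IsClosed {g : GG | ev w g = 1} := by
      intro w
      rw [← isOpen_compl_iff]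
      exact TopologicalSpace.isOpen_generateFrom_of_mem ⟨w, rfl⟩
    have hC : ∀ c : S3, IsClosed {x : GG | x i = c} := by
      intro c
      have h1 : {x : GG | x i = c} = ⋂ b : S3,
          {g : GG | ev ((Coprod.inl (Pi.mulSingle i c))⁻¹ * Coprod.inr (FreeGroup.of ()) *
            Coprod.inl (Pi.mulSingle i b) *
            ((Coprod.inl (Pi.mulSingle i c))⁻¹ * Coprod.inr (FreeGroup.of ()))⁻¹ *
            (Coprod.inl (Pi.mulSingle i b))⁻¹) g = 1} := by
        ext x
        simp only [Set.mem_setOf_eq, Set.mem_iInter, ev_mul, ev_inv, ev_inl, ev_var]
        constructor
        · intro hx b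
          funext j
          by_cases hj : j = i
          · subst hj
            simp [hx]
          · simp [Pi.mulSingle_eq_of_ne hj]
        · intro h
          have h2 : c⁻¹ * x i = 1 := by
            apply center_S3
            intro b
            have h3 := congrFun (h b) i
            simp only [Pi.mul_apply, Pi.inv_apply, Pi.mulSingle_eq_same, Pi.one_apply] at h3
            have h4 := mul_inv_eq_one.1 h3
            have h5 := mul_inv_eq_iff_eq_mul.1 h4
            exact h5
          exact (inv_mul_eq_one.1 h2).symm
      rw [h1]
      exact isClosed_iInter fun b => hE _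
    rw [continuous_def]
    intro s _
    rw [← isClosed_compl_iff]
    have h2 : ((fun x : GG => x i) ⁻¹' s)ᶜ = ⋃ c ∈ sᶜ, {x : GG | x i = c} := by
      ext x
      simp
    rw [h2]
    exact (Set.toFinite _).isClosed_biUnion fun c _ => hC c
  · -- the sets of the family are open in the product topology
    refine le_generateFrom ?_
    rintro U ⟨w, rfl⟩
    have hcont : Continuous (fun g : GG => ev w g) := by
      induction w using Coprod.induction_on with
      | inl a => simp only [ev_inl]; exact continuous_const
      | inr f =>
        have h3 : ∀ g : GG, ev (Coprod.inr f) g = FreeGroup.lift (fun _ => g) f := by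
          intro g
          simp [ev]
        simp only [h3]
        induction f using FreeGroup.induction_on with
        | C1 => simp only [map_one]; exact continuous_const
        | of x => simp only [FreeGroup.lift_apply_of]; exact continuous_id
        | inv_of x _ => simp only [map_inv, FreeGroup.lift_apply_of]; exact continuous_inv
        | mul x y hx hy =>
          simp only [map_mul]
          refine Continuous.mul ?_ ?_
          · apply hx
            intro g
            simp [ev]
          · apply hy
            intro g
            simp [ev]
      | mul x y hx hy =>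
        simp only [ev_mul]
        exact hx.mul hy
    have h4 : IsClosed {g : GG | ev w g = 1} := isClosed_singleton.preimage hcont
    exact h4.isOpen_compl

/-- There is an infinite group whose Zariski topology is both compact and Hausdorff. The closed sets of that topology are generated by solution sets of one-variable equations with constants from the group. -/
theorem result :
    ∃ (G : Type) (_ : Group G) (T : TopologicalSpace G),
      Infinite G ∧
      T = TopologicalSpace.generateFrom
        {U : Set G | ∃ w : Monoid.Coprod G (FreeGroup Unit),
          U = {g : G | Monoid.Coprod.lift (MonoidHom.id G) (FreeGroup.lift (fun _ => g)) w = 1}ᶜ} ∧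
      @CompactSpace G T ∧ @T2Space G T := by
  letI : TopologicalSpace S3 := ⊥
  haveI : DiscreteTopology S3 := ⟨rfl⟩
  refine ⟨GG, inferInstance, Pi.topologicalSpace, inferInstance, zariski_eq.symm, ?_, ?_⟩
  · infer_instance
  · infer_instance

end Pool.Agent.S00905
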