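import Pool.Statements.S04624

set_option autoImplicit false
open MeasureTheory
open Pool Pool.MP_4d58d7_an

namespace Pool.Agent.S04624

/-- The sketch `Ω_s`, with columns `(1,0)`, `(0,1)`, `(1/10)(1,s)`. -/
noncomputable def Om (s : ℝ) : Fin 2 → Fin 3 → ℝ := ![![1, 0, 1 / 10], ![0, 1, s / 10]]

lemma quad (s : ℝ) (x : Fin 2 → ℝ) :
    ∑ j, (∑ i, Om s i j * x i) ^ 2 = x 0 ^ 2 + x 1 ^ 2 + (x 0 + s * x 1) ^ 2 / 100 := by
  simp only [Om, Fin.sum_univ_three, Fin.sum_univ_two]
  simp
  ring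

/-- The random sketch: `0` with probability `1/101`, `Ω_1` and `Ω_{-1}` with probability `50/101`. -/
noncomputable def mu : Measure (Fin 2 → Fin 3 → ℝ) :=
  ENNReal.ofReal (1 / 101) • Measure.dirac 0 +
    (ENNReal.ofReal (50 / 101) • Measure.dirac (Om 1) +
      ENNReal.ofReal (50 / 101) • Measure.dirac (Om (-1)))

instance : IsProbabilityMeasure mu := by
  constructor
  simp only [mu, Measure.add_apply, Measure.smul_apply, measure_univ, smul_eq_mul, mul_one]
  rw [← ENNReal.ofReal_add (by norm_num) (by norm_num),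
    ← ENNReal.ofReal_add (by norm_num) (by norm_num)]
  norm_num

lemma integral_mu (f : (Fin 2 → Fin 3 → ℝ) → ℝ) :
    ∫ ω, f ω ∂mu = 1 / 101 * f 0 + (50 / 101 * f (Om 1) + 50 / 101 * f (Om (-1))) := by
  have hi : ∀ (c : ℝ) (a : Fin 2 → Fin 3 → ℝ),
      Integrable f (ENNReal.ofReal c • Measure.dirac a) := by
    intro c a
    apply Integrable.smul_measure _ ENNReal.ofReal_ne_top
    exact integrable_dirac (by simp)
  rw [mu, integral_add_measure (hi _ _) ((hi _ _).add_measure (hi _ _)),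
    integral_add_measure (hi _ _) (hi _ _)]
  simp only [integral_smul_measure, integral_dirac, smul_eq_mul]
  rw [ENNReal.toReal_ofReal (by norm_num), ENNReal.toReal_ofReal (by norm_num)]

/-- A set containing both `Ω_1` and `Ω_{-1}` has probability at least `99/100`. -/
lemma le_mu (S : Set (Fin 2 → Fin 3 → ℝ)) (h1 : Om 1 ∈ S) (h2 : Om (-1) ∈ S) :
    ENNReal.ofReal (99 / 100) ≤ mu S := by
  have h : ENNReal.ofReal (99 / 100) ≤ ENNReal.ofReal (50 / 101) + ENNReal.ofReal (50 / 101) := by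
    rw [← ENNReal.ofReal_add (by norm_num) (by norm_num)]
    exact ENNReal.ofReal_le_ofReal (by norm_num)
  refine h.trans ?_
  simp only [mu, Measure.add_apply, Measure.smul_apply, smul_eq_mul]
  rw [Measure.dirac_apply (Om 1) S, Measure.dirac_apply (Om (-1)) S,
    Set.indicator_of_mem h1, Set.indicator_of_mem h2]
  simp

/-- A set containing none of the three sketches has probability `0`. -/
lemma mu_eq_zero (S : Set (Fin 2 → Fin 3 → ℝ)) (h0 : (0 : Fin 2 → Fin 3 → ℝ) ∉ S)
    (h1 : Om 1 ∉ S) (h2 : Om (-1) ∉ S) : mu S = 0 := by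
  simp only [mu, Measure.add_apply, Measure.smul_apply, smul_eq_mul]
  rw [Measure.dirac_apply, Measure.dirac_apply (Om 1) S, Measure.dirac_apply (Om (-1)) S,
    Set.indicator_of_notMem h0, Set.indicator_of_notMem h1, Set.indicator_of_notMem h2]
  simp

/-- The matrix `A` of the counterexample: the first unit vector. -/
def AA : Matrix (Fin 2) (Fin 1) ℝ := !![1; 0]

/-- The matrix `B` of the counterexample: the vector `(1,1)`. -/
def BB : Matrix (Fin 2) (Fin 1) ℝ := !![1; 1]

/-- The pseudoinverse of `Ω_sᵀ A`. -/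
noncomputable def GG : Matrix (Fin 1) (Fin 3) ℝ := !![100 / 101, 0, 10 / 101]

lemma TA (s : ℝ) : Matrix.transpose (Matrix.of (Om s)) * AA = !![1; 0; 1 / 10] := by
  ext i j
  fin_cases i <;> fin_cases j <;> simp [Matrix.mul_apply, Fin.sum_univ_two, Om, AA]

lemma rank_AA : AA.rank = 1 := by
  have h : (Matrix.transpose AA * AA).rank = 1 := by
    have : Matrix.transpose AA * AA = (1 : Matrix (Fin 1) (Fin 1) ℝ) := by
      ext i j
      fin_cases i; fin_cases j
      simp [AA, Matrix.mul_apply, Fin.sum_univ_two]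
    rw [this, Matrix.rank_one]; simp
  have h1 : (Matrix.transpose AA * AA).rank ≤ AA.rank := Matrix.rank_mul_le_right _ _
  have h2 : AA.rank ≤ 1 := by simpa using Matrix.rank_le_card_width AA
  omega

/-- The event of the frozen statement that the bound with constant `C` holds. -/
def Good (C ε : ℝ) (ω : Fin 2 → Fin 3 → ℝ) : Prop :=
  ∀ G : Matrix (Fin 1) (Fin 3) ℝ,
    (Matrix.transpose (Matrix.of ω) * AA) * G * (Matrix.transpose (Matrix.of ω) * AA)
        = Matrix.transpose (Matrix.of ω) * AA →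
    G * (Matrix.transpose (Matrix.of ω) * AA) * G = G →
    Matrix.transpose ((Matrix.transpose (Matrix.of ω) * AA) * G)
        = (Matrix.transpose (Matrix.of ω) * AA) * G →
    Matrix.transpose (G * (Matrix.transpose (Matrix.of ω) * AA))
        = G * (Matrix.transpose (Matrix.of ω) * AA) →
    ∀ X : Matrix (Fin 1) (Fin 1) ℝ,
      Real.sqrt (∑ i, ∑ j, ((AA * (G * Matrix.transpose (Matrix.of ω) * BB) - BB) i j) ^ 2) ≤
        (1 + C * ε) * Real.sqrt (∑ i, ∑ j, ((AA * X - BB) i j) ^ 2)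

lemma opt : Real.sqrt (∑ i, ∑ j, ((AA * (!![1] : Matrix (Fin 1) (Fin 1) ℝ) - BB) i j) ^ 2) = 1 := by
  simp [AA, BB, Fin.sum_univ_two, Matrix.mul_apply]

lemma not_good_Om (C ε s : ℝ) (hs : s ^ 2 = 1) (h : (1 + C * ε) < Real.sqrt (1 + 1 / 101 ^ 2)) :
    ¬ Good C ε (Om s) := by
  intro hg
  have e1 : GG * (Matrix.transpose (Matrix.of (Om s)) * AA) = 1 := by
    rw [TA]
    ext i j
    fin_cases i; fin_cases j
    simp [GG, Matrix.mul_apply, Fin.sum_univ_three]
    norm_num
  have h1 := hg GG (by rw [Matrix.mul_assoc, e1, Matrix.mul_one]) (by rw [e1, Matrix.one_mul])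
    (by
      rw [TA]
      ext i j
      fin_cases i <;> fin_cases j <;>
        simp [GG, Matrix.mul_apply] <;> norm_num)
    (by rw [e1, Matrix.transpose_one]) !![1]
  rw [opt, mul_one] at h1
  have h2 : (∑ i, ∑ j, ((AA * (GG * Matrix.transpose (Matrix.of (Om s)) * BB) - BB) i j) ^ 2)
      = 1 + 1 / 101 ^ 2 := by
    simp only [AA, BB, GG, Om, Fin.sum_univ_two, Matrix.mul_apply, Fin.sum_univ_three,
      Matrix.sub_apply, Finset.univ_unique, Finset.sum_singleton, Matrix.transpose_apply,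
      Matrix.of_apply]
    simp
    nlinarith [hs]
  rw [h2] at h1
  linarith

lemma not_good_zero (C ε : ℝ) (h : (1 + C * ε) < Real.sqrt (1 + 1 / 101 ^ 2)) :
    ¬ Good C ε 0 := by
  intro hg
  have hz : Matrix.transpose (Matrix.of (0 : Fin 2 → Fin 3 → ℝ)) * AA = 0 := by
    ext i j
    simp [Matrix.mul_apply]
  have h1 := hg 0 (by rw [hz]; simp) (by simp) (by simp) (by simp) !![1]
  rw [opt, mul_one] at h1
  have h2 : (∑ i, ∑ j, ((AA * ((0 : Matrix (Fin 1) (Fin 3) ℝ) *
      Matrix.transpose (Matrix.of (0 : Fin 2 → Fin 3 → ℝ)) * BB) - BB) i j) ^ 2) = 2 := by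
    simp [BB, Fin.sum_univ_two]
    norm_num
  rw [h2] at h1
  have h3 : Real.sqrt (1 + 1 / 101 ^ 2) ≤ Real.sqrt 2 := Real.sqrt_le_sqrt (by norm_num)
  linarith

end Pool.Agent.S04624

namespace Pool.Agent.S04624

/-- The negation of the preceding statement: There are constants C and c₀>0 such that, for any isotropic n×k random matrix Ω that is a dimension-d OSI with injectivity 1−ε and failure 0.01, sketch-and-solve has error at most (1+Cε)·OPT with probability at least c₀. -/
theorem result :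
    ¬ (∃ C : ℝ, ∃ c₀ : ℝ, 0 < c₀ ∧
    ∀ (n d p k : ℕ), 0 < n → 0 < d → 0 < p → 0 < k →
    ∀ ε : ℝ, 0 < ε → ε < 1 →
    ∀ (A : Matrix (Fin n) (Fin d) ℝ), A.rank = d →
    ∀ (B : Matrix (Fin n) (Fin p) ℝ),
    ∀ (μ : Measure (Fin n → Fin k → ℝ)) [IsProbabilityMeasure μ],
      (∀ x : Fin n → ℝ, ∫ ω, (∑ j, (∑ i, ω i j * x i) ^ 2) ∂μ = ∑ i, x i ^ 2) →
      (∀ V : Submodule ℝ (Fin n → ℝ), Module.finrank ℝ V = d →
         ENNReal.ofReal (99 / 100) ≤
           μ {ω | ∀ x ∈ V, (1 - ε) * ∑ i, x i ^ 2 ≤ ∑ j, (∑ i, ω i j * x i) ^ 2}) →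
      ENNReal.ofReal c₀ ≤ μ {ω | ∀ G : Matrix (Fin d) (Fin k) ℝ,
          (Matrix.transpose (Matrix.of ω) * A) * G * (Matrix.transpose (Matrix.of ω) * A)
              = Matrix.transpose (Matrix.of ω) * A →
          G * (Matrix.transpose (Matrix.of ω) * A) * G = G →
          Matrix.transpose ((Matrix.transpose (Matrix.of ω) * A) * G)
              = (Matrix.transpose (Matrix.of ω) * A) * G →
          Matrix.transpose (G * (Matrix.transpose (Matrix.of ω) * A))
              = G * (Matrix.transpose (Matrix.of ω) * A) →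
          ∀ X : Matrix (Fin d) (Fin p) ℝ,
            Real.sqrt (∑ i, ∑ j, ((A * (G * Matrix.transpose (Matrix.of ω) * B) - B) i j) ^ 2) ≤
              (1 + C * ε) * Real.sqrt (∑ i, ∑ j, ((A * X - B) i j) ^ 2)}) := by
  rintro ⟨C, c₀, hc₀, H⟩
  -- the accuracy parameter
  obtain ⟨ε, hε0, hε1, hε⟩ : ∃ ε : ℝ, 0 < ε ∧ ε < 1 ∧ C * ε ≤ 1 / 100000 := by
    refine ⟨1 / (100000 * (1 + |C|)), by positivity, ?_, ?_⟩
    · rw [div_lt_one (by positivity)]
      have := abs_nonneg C
      linarith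
    · rw [mul_one_div, div_le_div_iff₀ (by positivity) (by norm_num)]
      have := le_abs_self C
      linarith
  have hlt : 1 + C * ε < Real.sqrt (1 + 1 / 101 ^ 2) := by
    refine lt_of_le_of_lt (add_le_add_right hε 1) ?_
    apply Real.lt_sqrt_of_sq_lt
    norm_num
  have h := H 2 1 1 3 (by norm_num) (by norm_num) (by norm_num) (by norm_num) ε hε0 hε1 AA rank_AA
    BB mu ?_ ?_
  · have h0 : mu {ω | Good C ε ω} = 0 :=
      mu_eq_zero _ (not_good_zero C ε hlt) (not_good_Om C ε 1 (by norm_num) hlt)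
        (not_good_Om C ε (-1) (by norm_num) hlt)
    have h1 : ENNReal.ofReal c₀ ≤ mu {ω | Good C ε ω} := h
    rw [h0, nonpos_iff_eq_zero, ENNReal.ofReal_eq_zero] at h1
    linarith
  · intro x
    rw [integral_mu, quad, quad]
    simp only [Fin.sum_univ_two, Pi.zero_apply, zero_mul, add_zero]
    simp
    ring
  · intro V _
    apply le_mu
    · intro x _
      rw [quad]
      simp only [Fin.sum_univ_two]
      have := sq_nonneg (x 0 + 1 * x 1)
      have := sq_nonneg (x 0)
      have := sq_nonneg (x 1)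
      nlinarith
    · intro x _
      rw [quad]
      simp only [Fin.sum_univ_two]
      have := sq_nonneg (x 0 + (-1) * x 1)
      have := sq_nonneg (x 0)
      have := sq_nonneg (x 1)
      nlinarith

end Pool.Agent.S04624
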