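import Pool.Statements.S05106
-- import your own Pool.Agent.* helpers here

set_option autoImplicit false
open Pool Pool.MP_7987d1_an

namespace Pool.Agent.S05106

section aux

variable {E : Type*} [NormedAddCommGroup E] [NormedSpace ℝ E]

lemma hasDeriv_sig (x : ℝ) :
    HasDerivAt Real.sigmoid (Real.sigmoid x * (1 - Real.sigmoid x)) x := by
  have h := (differentiableAt_sigmoid (x := x)).hasDerivAt
  rwa [Real.deriv_sigmoid] at h

lemma hasFDeriv_front (l : E →L[ℝ] ℝ) (c : ℝ) (y : E) :
    HasFDerivAt (fun y : E => Real.sigmoid (l y + c))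
      ((Real.sigmoid (l y + c) * (1 - Real.sigmoid (l y + c))) • l) y :=
  (hasDeriv_sig _).comp_hasFDerivAt y (l.hasFDerivAt.add_const c)

lemma fderiv_front (l : E →L[ℝ] ℝ) (c : ℝ) :
    fderiv ℝ (fun y : E => Real.sigmoid (l y + c)) = fun y =>
      ((Real.sigmoid (l y + c) * (1 - Real.sigmoid (l y + c))) • l) := by
  funext y; exact (hasFDeriv_front l c y).fderiv

lemma second_front (l : E →L[ℝ] ℝ) (c : ℝ) (x v : E) :
    iteratedFDeriv ℝ 2 (fun y : E => Real.sigmoid (l y + c)) x (fun _ => v) =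
      Real.sigmoid (l x + c) * (1 - Real.sigmoid (l x + c)) *
        (1 - 2 * Real.sigmoid (l x + c)) * (l v * l v) := by
  have hq : HasDerivAt (fun z : ℝ => Real.sigmoid z * (1 - Real.sigmoid z))
      (Real.sigmoid (l x + c) * (1 - Real.sigmoid (l x + c)) *
        (1 - 2 * Real.sigmoid (l x + c))) (l x + c) := by
    have h1 := hasDeriv_sig (l x + c)
    have h2 := h1.mul (h1.const_sub 1)
    refine h2.congr_deriv ?_
    ring
  have h3 : HasFDerivAt (fun y : E =>
      (Real.sigmoid (l y + c) * (1 - Real.sigmoid (l y + c))))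
      ((Real.sigmoid (l x + c) * (1 - Real.sigmoid (l x + c)) *
        (1 - 2 * Real.sigmoid (l x + c))) • l) x :=
    HasDerivAt.comp_hasFDerivAt (h₂ := fun z : ℝ => Real.sigmoid z * (1 - Real.sigmoid z)) x hq
      (l.hasFDerivAt.add_const c)
  have h4 := h3.smul_const l
  rw [iteratedFDeriv_two_apply, fderiv_front, h4.fderiv]
  simp only [ContinuousLinearMap.smulRight_apply, smul_apply, smul_eq_mul]
  ring

end aux

/-- The negation of the preceding statement: For 1≤n≤8, every C² solution of Δu−u_t=u³−u for t<0 with ∣u∣≤1, ∂u/∂x_n>0 and u_t≥0 has the form u(x,t)=g(ν·x) for a unit vector ν, i.e. is one-dimensional and time-independent. -/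
theorem result :
    ¬ (∀ m : ℕ, m + 1 ≤ 8 → ∀ u : EuclideanSpace ℝ (Fin (m + 1)) × ℝ → ℝ,
    ContDiffOn ℝ 2 u {p | p.2 < 0} →
    (∀ x : EuclideanSpace ℝ (Fin (m + 1)), ∀ t : ℝ, t < 0 →
      |u (x, t)| ≤ 1 ∧
      (∑ i : Fin (m + 1), iteratedFDeriv ℝ 2 (fun y => u (y, t)) x
          (fun _ => EuclideanSpace.single i (1 : ℝ)))
        - deriv (fun s => u (x, s)) t = u (x, t) ^ 3 - u (x, t) ∧
      0 < fderiv ℝ (fun y => u (y, t)) x (EuclideanSpace.single (Fin.last m) (1 : ℝ)) ∧
      0 ≤ deriv (fun s => u (x, s)) t) →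
    ∃ ν : EuclideanSpace ℝ (Fin (m + 1)), ‖ν‖ = 1 ∧
      ∃ g : ℝ → ℝ, ∀ x : EuclideanSpace ℝ (Fin (m + 1)), ∀ t : ℝ, t < 0 →
        u (x, t) = g (inner ℝ ν x)) := by
  intro h
  have hs : (0 : ℝ) < √2 := by positivity
  have hs2 : √2 * √2 = 2 := Real.mul_self_sqrt (by norm_num)
  set l : EuclideanSpace ℝ (Fin (0 + 1)) →L[ℝ] ℝ :=
    (1 / √2) • (EuclideanSpace.proj (0 : Fin (0 + 1)) :
                EuclideanSpace ℝ (Fin (0 + 1)) →L[ℝ] ℝ) with hl
  have hle : l (EuclideanSpace.single (0 : Fin (0 + 1)) (1 : ℝ)) = 1 / √2 := by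
    simp [hl]
  -- the monotone travelling front invading the unstable state `0`
  obtain ⟨ν, -, g, hg⟩ := h 0 (by norm_num)
    (fun p => Real.sigmoid (l p.1 + 3 / 2 * p.2)) (by
      apply ContDiff.contDiffOn
      exact (contDiff_sigmoid.of_le le_top).comp (by fun_prop)) (by
      intro x t _
      have hpos : 0 < Real.sigmoid (l x + 3 / 2 * t) := Real.sigmoid_pos _
      have hlt : Real.sigmoid (l x + 3 / 2 * t) < 1 := Real.sigmoid_lt_one _
      have h5 : 0 < Real.sigmoid (l x + 3 / 2 * t) * (1 - Real.sigmoid (l x + 3 / 2 * t)) :=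
        mul_pos hpos (by linarith)
      -- time derivative
      have htd : HasDerivAt (fun s => Real.sigmoid (l x + 3 / 2 * s))
          (Real.sigmoid (l x + 3 / 2 * t) * (1 - Real.sigmoid (l x + 3 / 2 * t)) * (3 / 2)) t := by
        have h1 : HasDerivAt (fun s : ℝ => l x + 3 / 2 * s) (3 / 2) t := by
          simpa using ((hasDerivAt_id t).const_mul (3 / 2)).const_add (l x)
        exact (hasDeriv_sig _).comp t h1
      refine ⟨by rw [abs_le]; constructor <;> simp only <;> linarith, ?_, ?_, ?_⟩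
      · rw [Fintype.sum_eq_single (0 : Fin (0 + 1)) (fun i hi => absurd (Fin.ext (by omega)) hi)]
        simp only
        rw [second_front, htd.deriv, hle]
        have : (1 / √2) * (1 / √2) = 1 / 2 := by
          rw [div_mul_div_comm, hs2]; norm_num
        rw [this]
        ring
      · simp only
        rw [fderiv_front]
        have h2 : 0 < 1 / √2 := by positivity
        have h6 : Fin.last 0 = (0 : Fin (0 + 1)) := rfl
        rw [h6]
        simp only [smul_apply, smul_eq_mul, hle]
        exact mul_pos h5 h2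
      · simp only
        rw [htd.deriv]
        linarith)
  have h1 := hg 0 (-1) (by norm_num)
  have h2 := hg 0 (-2) (by norm_num)
  simp only [inner_zero_right] at h1 h2
  have h3 := Real.sigmoid_injective (h1.trans h2.symm)
  simp only [map_zero] at h3
  norm_num at h3

end Pool.Agent.S05106
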