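-- Proof of the frozen statement S06524 (the negation of the question of Riviere).
-- The kernel is k(x) = W(arg x)/|x|^2 on the plane, with W square integrable, odd with respect to the half turn, and
-- with the Fourier coefficients 1/(j+1) at the frequencies 3^j (helper files Pool/Agent/P8H66/RS/*.lean).
import Pool.Statements.S06524
import Pool.Agent.P8H66.RS.I

set_option autoImplicit false
open MeasureTheory Filter Topology Metric
open Pool Pool.MP_e7f1de_an

namespace Pool.Agent.S06524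

open Pool.Agent.P8H66.RS

/-- the isometry of the Euclidean plane and the complex numbers -/
noncomputable def T : EuclideanSpace ℝ (Fin 2) ≃ₗᵢ[ℝ] ℂ := Complex.orthonormalBasisOneI.repr.symm

lemma T_emb : MeasurableEmbedding T := T.toHomeomorph.measurableEmbedding

lemma T_set (g : ℂ → ℝ) (p : ℝ → Prop) :
    ∫ x in {x : EuclideanSpace ℝ (Fin 2) | p ‖x‖}, g (T x) = ∫ z in {z : ℂ | p ‖z‖}, g z := by
  rw [← T.measurePreserving.setIntegral_preimage_emb T_emb g {z : ℂ | p ‖z‖}]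
  congr 2
  ext x
  show p ‖x‖ ↔ p ‖T x‖
  rw [LinearIsometryEquiv.norm_map]

lemma T_integrableOn (g : ℂ → ℝ) (p : ℝ → Prop) (h : IntegrableOn g {z : ℂ | p ‖z‖}) :
    IntegrableOn (fun x => g (T x)) {x : EuclideanSpace ℝ (Fin 2) | p ‖x‖} := by
  have h1 := (T.measurePreserving.integrableOn_comp_preimage T_emb (s := {z : ℂ | p ‖z‖})).2 h
  have h2 : T ⁻¹' {z : ℂ | p ‖z‖} = {x : EuclideanSpace ℝ (Fin 2) | p ‖x‖} := by
    ext x
    show p ‖T x‖ ↔ p ‖x‖
    rw [LinearIsometryEquiv.norm_map]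
  rwa [h2] at h1

/-- The negation of the preceding statement: For every kernel homogeneous of degree -n, mean zero on the sphere, with angular part in L log L, there is C such that the principal-value operator sends each bounded compactly supported f with ∣f∣≤M to a function of BMO norm at most C·M. -/
theorem result :
    ¬ (∀ (n : ℕ), 1 ≤ n →
    ∀ (k : EuclideanSpace ℝ (Fin n) → ℝ), Measurable k →
    (∀ x : EuclideanSpace ℝ (Fin n), x ≠ 0 → ∀ t : ℝ, 0 < t →
        k (t • x) = t ^ (-(n : ℤ)) * k x) →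
    IntegrableOn k {x : EuclideanSpace ℝ (Fin n) | 1 ≤ ‖x‖ ∧ ‖x‖ ≤ 2} volume →
    (∫ x in {x : EuclideanSpace ℝ (Fin n) | 1 ≤ ‖x‖ ∧ ‖x‖ ≤ 2}, k x) = 0 →
    IntegrableOn (fun x => |k x| * max 0 (Real.log |k x|))
        {x : EuclideanSpace ℝ (Fin n) | 1 ≤ ‖x‖ ∧ ‖x‖ ≤ 2} volume →
    ∃ C : ℝ, ∀ (f : EuclideanSpace ℝ (Fin n) → ℝ) (M : ℝ),
      Measurable f → HasCompactSupport f → (∀ x, |f x| ≤ M) →
      ∀ g : EuclideanSpace ℝ (Fin n) → ℝ,
        (∀ᵐ x ∂(volume : Measure (EuclideanSpace ℝ (Fin n))),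
          Tendsto (fun ε : ℝ => ∫ y in {y : EuclideanSpace ℝ (Fin n) | ε < ‖y‖}, k y * f (x - y))
            (𝓝[>] 0) (𝓝 (g x))) →
        ∀ (c : EuclideanSpace ℝ (Fin n)) (r : ℝ), 0 < r →
          IntegrableOn g (ball c r) volume ∧
          (⨍ x in ball c r, |g x - ⨍ y in ball c r, g y|) ≤ C * M) := by
  intro H
  have hW := WW_adm
  have hs : MeasurableSet {z : ℂ | 1 ≤ ‖z‖ ∧ ‖z‖ ≤ 2} :=
    (measurableSet_le measurable_const measurable_norm).inter
      (measurableSet_le measurable_norm measurable_const)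
  have hfin : volume {z : ℂ | 1 ≤ ‖z‖ ∧ ‖z‖ ≤ 2} ≠ ⊤ := by
    refine (lt_of_le_of_lt (measure_mono ?_) (measure_closedBall_lt_top (x := (0:ℂ)) (r := 2))).ne
    intro z hz
    rw [mem_closedBall_zero_iff]
    exact hz.2
  -- the square of the kernel dominates everything
  have hdom : IntegrableOn (fun z : ℂ => 1 + ker WW z ^ 2) {z : ℂ | 1 ≤ ‖z‖ ∧ ‖z‖ ≤ 2} :=
    (integrableOn_const hfin).add (integrable_sq hW)
  have hi1 : IntegrableOn (ker WW) {z : ℂ | 1 ≤ ‖z‖ ∧ ‖z‖ ≤ 2} := by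
    refine hdom.mono' (ker_measurable hW.meas).aestronglyMeasurable (ae_of_all _ fun z => ?_)
    rw [Real.norm_eq_abs]
    have h1 := sq_abs (ker WW z)
    nlinarith [sq_nonneg (|ker WW z| - 1)]
  have hi2 : IntegrableOn (fun z : ℂ => |ker WW z| * max 0 (Real.log |ker WW z|))
      {z : ℂ | 1 ≤ ‖z‖ ∧ ‖z‖ ≤ 2} := by
    refine (integrable_sq hW).mono' ?_ (ae_of_all _ fun z => ?_)
    · exact ((ker_measurable hW.meas).abs.mul (measurable_const.max
        (Real.measurable_log.comp (ker_measurable hW.meas).abs))).aestronglyMeasurable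
    · rw [Real.norm_of_nonneg (mul_nonneg (abs_nonneg _) (le_max_left _ _))]
      have h1 : max 0 (Real.log |ker WW z|) ≤ |ker WW z| := by
        apply max_le (abs_nonneg _)
        rcases eq_or_lt_of_le (abs_nonneg (ker WW z)) with h | h
        · rw [← h, Real.log_zero]
        · have := Real.log_le_sub_one_of_pos h
          linarith
      calc |ker WW z| * max 0 (Real.log |ker WW z|) ≤ |ker WW z| * |ker WW z| :=
            mul_le_mul_of_nonneg_left h1 (abs_nonneg _)
        _ = ker WW z ^ 2 := by rw [← sq, sq_abs]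
  have hi0 : ∫ z in {z : ℂ | 1 ≤ ‖z‖ ∧ ‖z‖ ≤ 2}, ker WW z = 0 := by
    have h1 : ∫ z in {z : ℂ | 1 ≤ ‖z‖ ∧ ‖z‖ ≤ 2}, ker WW z =
        - ∫ z in {z : ℂ | 1 ≤ ‖z‖ ∧ ‖z‖ ≤ 2}, ker WW z := by
      conv_rhs => rw [← integral_indicator hs, ← integral_neg]
      rw [← integral_indicator hs, ← integral_neg_eq_self]
      congr 1
      funext z
      by_cases hz : z ∈ {z : ℂ | 1 ≤ ‖z‖ ∧ ‖z‖ ≤ 2}
      · rw [Set.indicator_of_mem hz, Set.indicator_of_mem (show -z ∈ {z : ℂ | 1 ≤ ‖z‖ ∧ ‖z‖ ≤ 2} by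
          show 1 ≤ ‖-z‖ ∧ ‖-z‖ ≤ 2
          rw [norm_neg]
          exact hz), ker_neg hW]
      · rw [Set.indicator_of_notMem hz, Set.indicator_of_notMem
          (show -z ∉ {z : ℂ | 1 ≤ ‖z‖ ∧ ‖z‖ ≤ 2} by
          show ¬ (1 ≤ ‖-z‖ ∧ ‖-z‖ ≤ 2)
          rw [norm_neg]
          exact hz), neg_zero]
    linarith
  obtain ⟨C, hC⟩ := H 2 (by norm_num) (fun x => ker WW (T x))
    ((ker_measurable hW.meas).comp T.continuous.measurable)
    (fun x _ t ht => by
      rw [map_smul, ker_smul _ ht]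
      congr 1)
    (T_integrableOn (ker WW) (fun r => 1 ≤ r ∧ r ≤ 2) hi1)
    (by rw [T_set (ker WW) (fun r => 1 ≤ r ∧ r ≤ 2)]; exact hi0)
    (T_integrableOn (fun z => |ker WW z| * max 0 (Real.log |ker WW z|))
      (fun r => 1 ≤ r ∧ r ≤ 2) hi2)
  refine main C fun f hf hfc hf1 => ?_
  obtain ⟨L, hL⟩ := hf.lipschitzWith_of_hasCompactSupport hfc (by norm_num)
  obtain ⟨M, hM⟩ := compact_bound hfc
  have hcs : HasCompactSupport (fun x => f (T x)) := hfc.comp_homeomorph T.toHomeomorph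
  have h1 := hC (fun x => f (T x)) 1 (hf.continuous.comp T.continuous).measurable hcs
    (fun x => hf1 _) (fun x => pv WW f (T x)) (ae_of_all _ fun x => by
      have h2 := pv_tendsto hW hL hM (T x)
      refine h2.congr fun ε => ?_
      rw [← T_set (fun z => ker WW z * f (T x - z)) (fun r => ε < r)]
      congr 1
      funext y
      rw [map_sub]) 0 1 one_pos
  have hball : {x : EuclideanSpace ℝ (Fin 2) | ‖x‖ < 1} = ball 0 1 := by
    ext x; simp
  have hball' : {x : ℂ | ‖x‖ < 1} = ball 0 1 := by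
    ext x; simp
  have hpre : T ⁻¹' (ball (0:ℂ) 1) = ball 0 1 := by
    ext x
    rw [Set.mem_preimage, mem_ball_zero_iff, mem_ball_zero_iff, LinearIsometryEquiv.norm_map]
  have hvol : volume.real (ball (0 : EuclideanSpace ℝ (Fin 2)) 1) = volume.real (ball (0:ℂ) 1) := by
    rw [Measure.real, Measure.real, ← T.measurePreserving.measure_preimage_emb T_emb, hpre]
  have havg : ∀ g : ℂ → ℝ, ⨍ x in ball (0 : EuclideanSpace ℝ (Fin 2)) 1, g (T x) =
      ⨍ x in ball (0:ℂ) 1, g x := by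
    intro g
    rw [setAverage_eq, setAverage_eq, hvol]
    congr 1
    have := T_set g (fun r => r < 1)
    rw [hball, hball'] at this
    exact this
  constructor
  · have h3 := h1.1
    have h4 := (T.measurePreserving.integrableOn_comp_preimage T_emb (s := ball (0:ℂ) 1)
      (f := pv WW f)).1 (by rw [hpre]; exact h3)
    exact h4
  · have h3 := h1.2
    rw [havg (pv WW f), mul_one] at h3
    rw [havg (fun z => |pv WW f z - ⨍ y in ball (0:ℂ) 1, pv WW f y|)] at h3
    exact h3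

end Pool.Agent.S06524
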