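import Pool.Statements.S08570
import Pool.Agent.P8H40.TypeHFinal

set_option autoImplicit false
open Pool Pool.MP_49949b_co

namespace Pool.Agent.S08570

/-- The negation of the preceding statement: Some finite projective plane of order n=k² has a quasiregular collineation group G with 2∣G∣>n²+n+1, ∣G∣=(n−k+1)², exactly 2k+1 point orbits, and no point or line fixed by all of G. -/
theorem result :
    ¬ (∃ (P L : Type) (_ : Membership P L) (_ : Configuration.ProjectivePlane P L)
      (_ : Finite P) (G : Type) (_ : Group G) (_ : Finite G)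
      (_ : MulAction G P) (_ : MulAction G L) (k : ℕ),
      Configuration.ProjectivePlane.order P L = k ^ 2 ∧
      FaithfulSMul G P ∧
      (∀ (g : G) (p : P) (l : L), p ∈ l ↔ g • p ∈ g • l) ∧
      (∀ (g : G) (p q : P), q ∈ MulAction.orbit G p → g • p = p → g • q = q) ∧
      (∀ (g : G) (l m : L), m ∈ MulAction.orbit G l → g • l = l → g • m = m) ∧
      2 * Nat.card G > (k ^ 2) ^ 2 + k ^ 2 + 1 ∧
      Nat.card G = (k ^ 2 - k + 1) ^ 2 ∧
      Nat.card (MulAction.orbitRel.Quotient G P) = 2 * k + 1 ∧
      (¬ ∃ p : P, ∀ g : G, g • p = p) ∧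
      (¬ ∃ l : L, ∀ g : G, g • l = l)) := by
  rintro ⟨P, L, iM, iP, iF, G, iG, iFG, iA, iB, k, hord, hfaith, hinc, hqP, -, hbig, hG, hOrb,
    hfixP, hfixL⟩
  have : Finite L := Pool.Agent.P8H40.Geo.finite_lines P L
  have X : Pool.Agent.P8H40.Geo.TypeH P L G k :=
    { hord := hord
      hfaith := hfaith
      hinc := hinc
      hqP := hqP
      hbig := hbig
      hG := hG
      hOrb := hOrb
      hfixP := hfixP
      hfixL := hfixL }
  exact X.contradiction

end Pool.Agent.S08570
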