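import Pool.Statements.S09406
import Pool.Agent.P8H53.K9.Plane
import Pool.Agent.P8H53.K9.Draw

set_option autoImplicit false
open Pool Pool.MP_6f60ef_co

namespace Pool.Agent.S09406

open Pool.Agent.P8H53.K9

/-- the eight orderings of a pair of edges are different -/
theorem card8 : ∀ u v x y : Fin 9, u ≠ v → x ≠ y → ¬ (u = x ∧ v = y) → ¬ (u = y ∧ v = x) →
    ({(u, v, x, y), (v, u, x, y), (u, v, y, x), (v, u, y, x), (x, y, u, v), (y, x, u, v),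
      (x, y, v, u), (y, x, v, u)} : Finset (Fin 9 × Fin 9 × Fin 9 × Fin 9)).card = 8 := by
  decide +kernel

theorem even_edges : Even (Set.ncard (⊤ : SimpleGraph (Fin 9)).edgeSet) := by
  classical
  rw [← SimpleGraph.coe_edgeFinset, Set.ncard_coe_finset,
    SimpleGraph.card_edgeFinset_top_eq_card_choose_two, Fintype.card_fin]
  decide

theorem main (c : Fin 9 → Fin 9 → Fin 2) (p : Fin 2 → Fin 9 → ℂ)
    (γ : Fin 2 → Fin 9 → Fin 9 → ℝ → ℂ)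
    (hc : ∀ u v : Fin 9, (⊤ : SimpleGraph (Fin 9)).Adj u v → c u v = c v u)
    (hp : ∀ i : Fin 2, Function.Injective (p i))
    (hγ : ∀ i : Fin 2, ∀ u v : Fin 9, (⊤ : SimpleGraph (Fin 9)).Adj u v → c u v = i →
            ContinuousOn (γ i u v) (Set.Icc (0:ℝ) 1) ∧
            Set.InjOn (γ i u v) (Set.Icc (0:ℝ) 1) ∧
            γ i u v 0 = p i u ∧ γ i u v 1 = p i v ∧
            (∀ t : ℝ, 0 ≤ t → t ≤ 1 → γ i v u t = γ i u v (1 - t)) ∧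
            ∀ t : ℝ, 0 < t → t < 1 → ∀ w : Fin 9, γ i u v t ≠ p i w)
    (φ : SimpleGraph.fromRel (fun u v => (⊤ : SimpleGraph (Fin 9)).Adj u v ∧ c u v = 0) ≃g
          SimpleGraph.fromRel (fun u v => (⊤ : SimpleGraph (Fin 9)).Adj u v ∧ c u v = 1))
    (S : Set (Fin 2 × Fin 9 × Fin 9 × Fin 9 × Fin 9 × ℂ)) (hS : S = {x |
            (⊤ : SimpleGraph (Fin 9)).Adj x.2.1 x.2.2.1 ∧
            (⊤ : SimpleGraph (Fin 9)).Adj x.2.2.2.1 x.2.2.2.2.1 ∧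
            c x.2.1 x.2.2.1 = x.1 ∧ c x.2.2.2.1 x.2.2.2.2.1 = x.1 ∧
            ¬ (x.2.1 = x.2.2.2.1 ∧ x.2.2.1 = x.2.2.2.2.1) ∧
            ¬ (x.2.1 = x.2.2.2.2.1 ∧ x.2.2.1 = x.2.2.2.1) ∧
            (∃ t : ℝ, 0 < t ∧ t < 1 ∧ γ x.1 x.2.1 x.2.2.1 t = x.2.2.2.2.2) ∧
            (∃ t : ℝ, 0 < t ∧ t < 1 ∧ γ x.1 x.2.2.2.1 x.2.2.2.2.1 t = x.2.2.2.2.2)})
    (hfin : S.Finite) (hcard : S.ncard ≤ 8) : False := by
  classical
  have hmem : ∀ (i : Fin 2) (u v x y : Fin 9) (z : ℂ), (i, u, v, x, y, z) ∈ S ↔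
      (u ≠ v ∧ x ≠ y ∧ c u v = i ∧ c x y = i ∧ ¬ (u = x ∧ v = y) ∧ ¬ (u = y ∧ v = x) ∧
      (∃ t : ℝ, 0 < t ∧ t < 1 ∧ γ i u v t = z) ∧ (∃ t : ℝ, 0 < t ∧ t < 1 ∧ γ i x y t = z)) := by
    intro i u v x y z
    rw [hS]
    exact Iff.rfl
  have hrev : ∀ (i : Fin 2) (u v : Fin 9) (z : ℂ), u ≠ v → c u v = i →
      (∃ t : ℝ, 0 < t ∧ t < 1 ∧ γ i u v t = z) → ∃ t : ℝ, 0 < t ∧ t < 1 ∧ γ i v u t = z := by
    rintro i u v z huv hcuv ⟨t, t0, t1, ht⟩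
    refine ⟨1 - t, by linarith, by linarith, ?_⟩
    rw [(hγ i u v huv hcuv).2.2.2.2.1 (1 - t) (by linarith) (by linarith), sub_sub_cancel, ht]
  have s1 : ∀ (i : Fin 2) (u v x y : Fin 9) (z : ℂ), (i, u, v, x, y, z) ∈ S →
      (i, v, u, x, y, z) ∈ S := by
    intro i u v x y z h
    rw [hmem] at h ⊢
    obtain ⟨h1, h2, h3, h4, h5, h6, h7, h8⟩ := h
    exact ⟨h1.symm, h2, (hc v u h1.symm).trans h3, h4, fun h => h6 ⟨h.2, h.1⟩,
      fun h => h5 ⟨h.2, h.1⟩, hrev i u v z h1 h3 h7, h8⟩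
  have s2 : ∀ (i : Fin 2) (u v x y : Fin 9) (z : ℂ), (i, u, v, x, y, z) ∈ S →
      (i, x, y, u, v, z) ∈ S := by
    intro i u v x y z h
    rw [hmem] at h ⊢
    obtain ⟨h1, h2, h3, h4, h5, h6, h7, h8⟩ := h
    exact ⟨h2, h1, h4, h3, fun h => h5 ⟨h.1.symm, h.2.symm⟩,
      fun h => h6 ⟨h.2.symm, h.1.symm⟩, h8, h7⟩
  have s3 : ∀ (i : Fin 2) (u v x y : Fin 9) (z : ℂ), (i, u, v, x, y, z) ∈ S →
      (i, u, v, y, x, z) ∈ S := fun i u v x y z h => s2 _ _ _ _ _ _ (s1 _ _ _ _ _ _ (s2 _ _ _ _ _ _ h))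
  -- one of the planes has no crossing
  obtain ⟨i, hi⟩ : ∃ i : Fin 2, ∀ x ∈ S, x.1 ≠ i := by
    by_contra hcon
    push Not at hcon
    obtain ⟨⟨i0, u, v, x, y, z⟩, hx0, hi0⟩ := hcon 0
    obtain ⟨x1, hx1, hi1⟩ := hcon 1
    simp only at hi0
    subst hi0
    have hd := (hmem _ _ _ _ _ _).1 hx0
    have h8 := card8 u v x y hd.1 hd.2.1 hd.2.2.2.2.1 hd.2.2.2.2.2.1
    let T : Finset (Fin 9 × Fin 9 × Fin 9 × Fin 9) :=
      {(u, v, x, y), (v, u, x, y), (u, v, y, x), (v, u, y, x), (x, y, u, v), (y, x, u, v),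
      (x, y, v, u), (y, x, v, u)}
    let g : Fin 9 × Fin 9 × Fin 9 × Fin 9 → Fin 2 × Fin 9 × Fin 9 × Fin 9 × Fin 9 × ℂ :=
      fun q => (0, q.1, q.2.1, q.2.2.1, q.2.2.2, z)
    have hg : Function.Injective g := by
      rintro ⟨a, b, d, e⟩ ⟨a', b', d', e'⟩ h
      simp only [g, Prod.mk.injEq] at h
      obtain ⟨-, h1, h2, h3, h4, -⟩ := h
      rw [h1, h2, h3, h4]
    have hT : (insert x1 (T.image g)).card = 9 := by
      rw [Finset.card_insert_of_notMem, Finset.card_image_of_injective _ hg]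
      · rw [h8]
      · intro hx
        rw [Finset.mem_image] at hx
        obtain ⟨q, _, hq⟩ := hx
        rw [← hq] at hi1
        exact absurd (show (0 : Fin 2) = 1 from hi1) (by decide)
    have hsub : ((insert x1 (T.image g) : Finset _) : Set _) ⊆ S := by
      intro q hq
      rw [Finset.mem_coe, Finset.mem_insert, Finset.mem_image] at hq
      rcases hq with rfl | ⟨r, hr, rfl⟩
      · exact hx1
      · simp only [T, Finset.mem_insert, Finset.mem_singleton] at hr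
        rcases hr with rfl | rfl | rfl | rfl | rfl | rfl | rfl | rfl
        · exact hx0
        · exact s1 _ _ _ _ _ _ hx0
        · exact s3 _ _ _ _ _ _ hx0
        · exact s3 _ _ _ _ _ _ (s1 _ _ _ _ _ _ hx0)
        · exact s2 _ _ _ _ _ _ hx0
        · exact s1 _ _ _ _ _ _ (s2 _ _ _ _ _ _ hx0)
        · exact s3 _ _ _ _ _ _ (s2 _ _ _ _ _ _ hx0)
        · exact s3 _ _ _ _ _ _ (s1 _ _ _ _ _ _ (s2 _ _ _ _ _ _ hx0))
    have h9 := Set.ncard_le_ncard hsub hfin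
    rw [Set.ncard_coe_finset, hT] at h9
    omega
  -- the complementing permutation
  have hφ : ∀ u v : Fin 9, u ≠ v → (c (φ u) (φ v) = 1 ↔ c u v = 0) := by
    intro u v huv
    have h1 := φ.map_rel_iff (a := u) (b := v)
    have huv' : φ u ≠ φ v := fun h => huv (φ.injective h)
    simp only [SimpleGraph.fromRel_adj, SimpleGraph.top_adj] at h1
    rw [hc (φ v) (φ u) huv'.symm, hc v u huv.symm] at h1
    constructor
    · intro h
      rcases (h1.1 ⟨huv', Or.inl ⟨huv', h⟩⟩).2 with h2 | h2 <;> exact h2.2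
    · intro h
      rcases (h1.2 ⟨huv, Or.inl ⟨huv, h⟩⟩).2 with h2 | h2 <;> exact h2.2
  have h01 : ∀ a : Fin 2, a = 0 ∨ a = 1 := by decide
  have h01' : (0 : Fin 2) ≠ 1 := by decide
  refine no_plane (c := fun u v => decide (c u v = i)) (σ := φ.toEquiv) ?_ ?_ (p i) (γ i) (hp i)
    ?_ ?_
  · intro u v huv
    simp only [hc u v huv]
  · intro u v huv
    have h := hφ u v huv
    change decide (c (φ u) (φ v) = i) = !decide (c u v = i)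
    rcases h01 i with rfl | rfl <;> rcases h01 (c u v) with h2 | h2
    · rw [h2] at h ⊢
      rw [h.2 rfl]; decide
    · rw [h2] at h ⊢
      rcases h01 (c (φ u) (φ v)) with h3 | h3
      · rw [h3]; decide
      · exact absurd (h.1 h3) h01'.symm
    · rw [h2] at h ⊢
      rw [h.2 rfl]; decide
    · rw [h2] at h ⊢
      rcases h01 (c (φ u) (φ v)) with h3 | h3
      · rw [h3]; decide
      · exact absurd (h.1 h3) h01'.symm
  · intro u v huv hcuv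
    obtain ⟨g1, _, g3, g4, _, g6⟩ := hγ i u v huv (of_decide_eq_true hcuv)
    exact ⟨g1, g3, g4, g6⟩
  · intro u v x y huv hxy hcuv hcxy h1 h2 h3 h4 s t s0 s1' t0 t1 he
    apply hi (i, u, v, x, y, γ i u v s) _ rfl
    rw [hmem]
    exact ⟨huv, hxy, of_decide_eq_true hcuv, of_decide_eq_true hcxy, fun h => h1 h.1,
      fun h => h2 h.1, ⟨s, s0, s1', rfl⟩, ⟨t, t0, t1, he.symm⟩⟩


/-- The negation of the preceding statement: If G is a complete graph or a complete bipartite graph with an even number of edges, then G has a drawing on two planes with minimum total crossings among all such drawings whose two plane subgraphs are isomorphic. -/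
theorem result :
    ¬ (∀ (V : Type) [Finite V] (G : SimpleGraph V),
      (G = ⊤ ∨ ∃ a b : ℕ, Nonempty (G ≃g completeBipartiteGraph (Fin a) (Fin b))) →
      Even (Set.ncard G.edgeSet) →
      ∃ (c : V → V → Fin 2) (p : Fin 2 → V → ℂ) (γ : Fin 2 → V → V → ℝ → ℂ),
        ((∀ u v : V, G.Adj u v → c u v = c v u) ∧
          (∀ i : Fin 2, Function.Injective (p i)) ∧
          (∀ i : Fin 2, ∀ u v : V, G.Adj u v → c u v = i →
            ContinuousOn (γ i u v) (Set.Icc (0:ℝ) 1) ∧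
            Set.InjOn (γ i u v) (Set.Icc (0:ℝ) 1) ∧
            γ i u v 0 = p i u ∧ γ i u v 1 = p i v ∧
            (∀ t : ℝ, 0 ≤ t → t ≤ 1 → γ i v u t = γ i u v (1 - t)) ∧
            ∀ t : ℝ, 0 < t → t < 1 → ∀ w : V, γ i u v t ≠ p i w) ∧
          Set.Finite {x : Fin 2 × V × V × V × V × ℂ |
            G.Adj x.2.1 x.2.2.1 ∧ G.Adj x.2.2.2.1 x.2.2.2.2.1 ∧
            c x.2.1 x.2.2.1 = x.1 ∧ c x.2.2.2.1 x.2.2.2.2.1 = x.1 ∧
            ¬ (x.2.1 = x.2.2.2.1 ∧ x.2.2.1 = x.2.2.2.2.1) ∧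
            ¬ (x.2.1 = x.2.2.2.2.1 ∧ x.2.2.1 = x.2.2.2.1) ∧
            (∃ t : ℝ, 0 < t ∧ t < 1 ∧ γ x.1 x.2.1 x.2.2.1 t = x.2.2.2.2.2) ∧
            (∃ t : ℝ, 0 < t ∧ t < 1 ∧ γ x.1 x.2.2.2.1 x.2.2.2.2.1 t = x.2.2.2.2.2)}) ∧
        Nonempty (SimpleGraph.fromRel (fun u v => G.Adj u v ∧ c u v = 0) ≃g
          SimpleGraph.fromRel (fun u v => G.Adj u v ∧ c u v = 1)) ∧
        ∀ (c' : V → V → Fin 2) (p' : Fin 2 → V → ℂ) (γ' : Fin 2 → V → V → ℝ → ℂ),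
          ((∀ u v : V, G.Adj u v → c' u v = c' v u) ∧
            (∀ i : Fin 2, Function.Injective (p' i)) ∧
            (∀ i : Fin 2, ∀ u v : V, G.Adj u v → c' u v = i →
              ContinuousOn (γ' i u v) (Set.Icc (0:ℝ) 1) ∧
              Set.InjOn (γ' i u v) (Set.Icc (0:ℝ) 1) ∧
              γ' i u v 0 = p' i u ∧ γ' i u v 1 = p' i v ∧
              (∀ t : ℝ, 0 ≤ t → t ≤ 1 → γ' i v u t = γ' i u v (1 - t)) ∧
              ∀ t : ℝ, 0 < t → t < 1 → ∀ w : V, γ' i u v t ≠ p' i w) ∧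
            Set.Finite {x : Fin 2 × V × V × V × V × ℂ |
              G.Adj x.2.1 x.2.2.1 ∧ G.Adj x.2.2.2.1 x.2.2.2.2.1 ∧
              c' x.2.1 x.2.2.1 = x.1 ∧ c' x.2.2.2.1 x.2.2.2.2.1 = x.1 ∧
              ¬ (x.2.1 = x.2.2.2.1 ∧ x.2.2.1 = x.2.2.2.2.1) ∧
              ¬ (x.2.1 = x.2.2.2.2.1 ∧ x.2.2.1 = x.2.2.2.1) ∧
              (∃ t : ℝ, 0 < t ∧ t < 1 ∧ γ' x.1 x.2.1 x.2.2.1 t = x.2.2.2.2.2) ∧
              (∃ t : ℝ, 0 < t ∧ t < 1 ∧ γ' x.1 x.2.2.2.1 x.2.2.2.2.1 t = x.2.2.2.2.2)}) →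
          Set.ncard {x : Fin 2 × V × V × V × V × ℂ |
              G.Adj x.2.1 x.2.2.1 ∧ G.Adj x.2.2.2.1 x.2.2.2.2.1 ∧
              c x.2.1 x.2.2.1 = x.1 ∧ c x.2.2.2.1 x.2.2.2.2.1 = x.1 ∧
              ¬ (x.2.1 = x.2.2.2.1 ∧ x.2.2.1 = x.2.2.2.2.1) ∧
              ¬ (x.2.1 = x.2.2.2.2.1 ∧ x.2.2.1 = x.2.2.2.1) ∧
              (∃ t : ℝ, 0 < t ∧ t < 1 ∧ γ x.1 x.2.1 x.2.2.1 t = x.2.2.2.2.2) ∧
              (∃ t : ℝ, 0 < t ∧ t < 1 ∧ γ x.1 x.2.2.2.1 x.2.2.2.2.1 t = x.2.2.2.2.2)} ≤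
            Set.ncard {x : Fin 2 × V × V × V × V × ℂ |
              G.Adj x.2.1 x.2.2.1 ∧ G.Adj x.2.2.2.1 x.2.2.2.2.1 ∧
              c' x.2.1 x.2.2.1 = x.1 ∧ c' x.2.2.2.1 x.2.2.2.2.1 = x.1 ∧
              ¬ (x.2.1 = x.2.2.2.1 ∧ x.2.2.1 = x.2.2.2.2.1) ∧
              ¬ (x.2.1 = x.2.2.2.2.1 ∧ x.2.2.1 = x.2.2.2.1) ∧
              (∃ t : ℝ, 0 < t ∧ t < 1 ∧ γ' x.1 x.2.1 x.2.2.1 t = x.2.2.2.2.2) ∧
              (∃ t : ℝ, 0 < t ∧ t < 1 ∧ γ' x.1 x.2.2.2.1 x.2.2.2.2.1 t = x.2.2.2.2.2)}) := by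
  intro H
  obtain ⟨c, p, γ, ⟨hc, hp, hγ, hfin⟩, ⟨φ⟩, hmin⟩ := H (Fin 9) ⊤ (Or.inl rfl) even_edges
  have h1 := hmin col pos arc ⟨drawing.1, drawing.2.1, drawing.2.2,
    (Finset.finite_toSet _).subset crossings⟩
  have h2 := Set.ncard_le_ncard crossings (Finset.finite_toSet _)
  rw [Set.ncard_coe_finset] at h2
  have h3 : (L8.image fun q : Fin 2 × Fin 9 × Fin 9 × Fin 9 × Fin 9 =>
      (q.1, q.2.1, q.2.2.1, q.2.2.2.1, q.2.2.2.2, z0)).card ≤ 8 :=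
    Finset.card_image_le.trans (by decide)
  exact main c p γ hc hp hγ φ _ rfl hfin (h1.trans (h2.trans h3))

end Pool.Agent.S09406
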