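import Pool.Statements.S09798
import Pool.Agent.P8H55.Degen

set_option autoImplicit false
open Pool Pool.MP_82152b_co

namespace Pool.Agent.S09798

/-- The negation of the preceding statement: For every k and every nonempty k-degenerate graph H with flap number f (1 if H has no (≤k)-separation, else the max number of pairwise independent ones), the max number of copies of H in an n-vertex k-degenerate graph is Θ(n^f). -/
theorem result :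
    ¬ (∀ (k : ℕ) (V : Type) [Fintype V] [Nonempty V] (H : SimpleGraph V),
    (∀ S : Finset V, S.Nonempty → ∃ v ∈ S, {w : V | w ∈ S ∧ H.Adj v w}.ncard ≤ k) →
    ∀ f : ℕ,
      (((¬ ∃ A B : H.Subgraph, A ⊔ B = ⊤ ∧ (∀ u v, A.Adj u v → ¬ B.Adj u v) ∧
            (∃ v, v ∈ A.verts ∧ v ∉ B.verts) ∧ (∃ v, v ∈ B.verts ∧ v ∉ A.verts) ∧
            (A.verts ∩ B.verts).ncard ≤ k) ∧ f = 1) ∨
       ((∃ A B : H.Subgraph, A ⊔ B = ⊤ ∧ (∀ u v, A.Adj u v → ¬ B.Adj u v) ∧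
            (∃ v, v ∈ A.verts ∧ v ∉ B.verts) ∧ (∃ v, v ∈ B.verts ∧ v ∉ A.verts) ∧
            (A.verts ∩ B.verts).ncard ≤ k) ∧
         IsGreatest {m : ℕ | ∃ A B : Fin m → H.Subgraph,
            (∀ i, A i ⊔ B i = ⊤ ∧ (∀ u v, (A i).Adj u v → ¬ (B i).Adj u v) ∧
              (∃ v, v ∈ (A i).verts ∧ v ∉ (B i).verts) ∧
              (∃ v, v ∈ (B i).verts ∧ v ∉ (A i).verts) ∧
              ((A i).verts ∩ (B i).verts).ncard ≤ k) ∧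
            ∀ i j, i ≠ j →
              (∀ u v, (A i).Adj u v → ¬ (A j).Adj u v) ∧
              ∀ v, v ∈ (A i).verts → v ∉ (B i).verts → ¬ (v ∈ (A j).verts ∧ v ∉ (B j).verts)} f)) →
      ∃ c₁ c₂ : ℝ, 0 < c₁ ∧ 0 < c₂ ∧ ∃ N : ℕ, ∀ n : ℕ, N ≤ n →
        (∃ G : SimpleGraph (Fin n),
            (∀ S : Finset (Fin n), S.Nonempty → ∃ v ∈ S, {w : Fin n | w ∈ S ∧ G.Adj v w}.ncard ≤ k) ∧
            c₁ * (n : ℝ) ^ f ≤
              (({φ : V ↪ Fin n | ∀ u v, H.Adj u v → G.Adj (φ u) (φ v)}.ncard : ℕ) : ℝ)) ∧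
        ∀ G : SimpleGraph (Fin n),
            (∀ S : Finset (Fin n), S.Nonempty → ∃ v ∈ S, {w : Fin n | w ∈ S ∧ G.Adj v w}.ncard ≤ k) →
            (({φ : V ↪ Fin n | ∀ u v, H.Adj u v → G.Adj (φ u) (φ v)}.ncard : ℕ) : ℝ) ≤ c₂ * (n : ℝ) ^ f) := by
  intro hall
  obtain ⟨f, hf2, hf⟩ := P8H55.Degen.exists_flap
  obtain ⟨c₁, c₂, hc₁, -, N, hN⟩ := hall 2 (Fin 5) P8H55.Degen.H P8H55.Degen.H_degen f (Or.inr hf)
  obtain ⟨n, hn1, hn2⟩ : ∃ n : ℕ, N + 1 ≤ n ∧ (81 : ℝ) ^ 5 / c₁ < n := by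
    obtain ⟨m, hm⟩ := exists_nat_gt ((81 : ℝ) ^ 5 / c₁)
    refine ⟨max m (N + 1), le_max_right _ _, hm.trans_le ?_⟩
    exact_mod_cast le_max_left m (N + 1)
  obtain ⟨⟨G, hG, hle⟩, -⟩ := hN n (by omega)
  have h1 := P8H55.Degen.count_le n G hG
  have h2 : (({φ : Fin 5 ↪ Fin n | ∀ u v, P8H55.Degen.H.Adj u v →
      G.Adj (φ u) (φ v)}.ncard : ℕ) : ℝ) ≤ (n : ℝ) * (81 : ℝ) ^ 5 := by
    exact_mod_cast h1
  have hn0 : (1 : ℝ) ≤ n := by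
    have : 1 ≤ n := by omega
    exact_mod_cast this
  have h3 : c₁ * (n : ℝ) ^ 2 ≤ c₁ * (n : ℝ) ^ f :=
    mul_le_mul_of_nonneg_left (pow_le_pow_right₀ hn0 hf2) hc₁.le
  have h4 : (81 : ℝ) ^ 5 < n * c₁ := by
    rwa [div_lt_iff₀ hc₁] at hn2
  have h5 : c₁ * (n : ℝ) ^ 2 ≤ (n : ℝ) * (81 : ℝ) ^ 5 := h3.trans (hle.trans h2)
  have h6 : (n : ℝ) * (81 : ℝ) ^ 5 < n * (n * c₁) :=
    mul_lt_mul_of_pos_left h4 (by linarith)
  nlinarith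

end Pool.Agent.S09798
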