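import Pool.Statements.S11473
import Pool.Agent.P8H50.LMDMain

set_option autoImplicit false
open Pool Pool.MP_cc29fe_co

namespace Pool.Agent.S11473

/-- Every finite connected graph with n vertices and clique number ω, where n ≥ ω+1 ≥ 4, has a set of at most (ω−2)/(ω−1)·n vertices distinguishing every adjacent pair by distance, i.e. local metric dimension ≤ (ω−2)n/(ω−1). -/
theorem result :
    ∀ (V : Type) [Fintype V] (G : SimpleGraph V), G.Connected →
      ∀ ω : ℕ, (∃ s : Finset V, G.IsNClique ω s) → G.CliqueFree (ω + 1) →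
        4 ≤ ω + 1 → ω + 1 ≤ Fintype.card V →
        ∃ W : Finset V,
          (∀ u v : V, G.Adj u v → ∃ w ∈ W, G.dist u w ≠ G.dist v w) ∧
          (W.card : ℝ) ≤ ((ω : ℝ) - 2) / ((ω : ℝ) - 1) * (Fintype.card V : ℝ) := by
  classical
  intro V _ G hconn ω hclique hfree hω hcard
  obtain ⟨W, h1, h2⟩ := Pool.Agent.P8H50.LMD.final hconn hclique hfree (by omega) hcard
  refine ⟨W, ?_, ?_⟩
  · intro u v huv
    obtain ⟨w, hw, hd⟩ := h1 u v huv
    exact ⟨w, hw, by rwa [SimpleGraph.dist_comm, SimpleGraph.dist_comm (u := v)]⟩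
  · have hω1 : (0 : ℝ) < (ω : ℝ) - 1 := by
      have : (3 : ℝ) ≤ (ω : ℝ) := by exact_mod_cast (by omega : 3 ≤ ω)
      linarith
    have h3 : W.card + Wᶜ.card = Fintype.card V := Finset.card_add_card_compl W
    have h4 : (W.card : ℝ) ≤ ((ω : ℝ) - 2) * (Wᶜ.card : ℝ) := by
      have h5 : (W.card : ℝ) ≤ (((ω - 2) * Wᶜ.card : ℕ) : ℝ) := by exact_mod_cast h2
      have h6 : (((ω - 2) * Wᶜ.card : ℕ) : ℝ) = ((ω : ℝ) - 2) * (Wᶜ.card : ℝ) := by
        rw [Nat.cast_mul, Nat.cast_sub (by omega)]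
        norm_num
      rwa [h6] at h5
    have h7 : (W.card : ℝ) + (Wᶜ.card : ℝ) = (Fintype.card V : ℝ) := by exact_mod_cast h3
    rw [div_mul_eq_mul_div, le_div_iff₀ hω1, ← h7]
    nlinarith

end Pool.Agent.S11473
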