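import Pool.Statements.S11612
import Pool.Agent.H279R3.TreeHelly

/-!
# A graph with `tw + 1 > tree-α * tree-χ`

The graph `G` has the vertices `v₀, …, v₄` (numbers `0, …, 4`) of a five-cycle and for each `i` a
false twin `uᵢ` (number `5 + i`) of `vᵢ`. It has a tree decomposition with bags `{v₀, …, v₄}` and
`{vᵢ₋₁, vᵢ₊₁, uᵢ}` (independence number two), one with the bags `V \ {v₀, u₀}`,
`{v₀, v₁, v₄, u₁, u₄}`, `{u₀, v₁, v₄}` (chromatic number two), but the five disjoint sets
`{vᵢ, uᵢ₊₁}` are connected and pairwise adjacent, so every tree decomposition has a bag with at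
least five vertices.
-/

set_option autoImplicit false
open Pool Pool.MP_d20af1_co

namespace Pool.Agent.S11612

open SimpleGraph H279R3

/-- adjacency of the example -/
def e (a b : Fin 10) : Bool :=
  (decide (a.val < 5) || decide (b.val < 5)) &&
    (decide ((a.val + 10 - b.val) % 5 = 1) || decide ((a.val + 10 - b.val) % 5 = 4))

lemma e_symm : ∀ a b : Fin 10, e a b = true → e b a = true := by decide

lemma e_irrefl : ∀ a : Fin 10, ¬ e a a = true := by decide

/-- the example -/
def G : SimpleGraph (Fin 10) where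
  Adj a b := e a b = true
  symm := ⟨fun a b h => e_symm a b h⟩
  loopless := ⟨fun a h => e_irrefl a h⟩

lemma star_conn {n : ℕ} (r : Fin n) (S : Set (Fin n)) (h : r ∈ S ∨ ∃ a, S = {a}) :
    ((starGraph r).induce S).Connected := by
  rcases h with h | ⟨a, rfl⟩
  · have hreach : ∀ x : S, ((starGraph r).induce S).Reachable ⟨r, h⟩ x := by
      intro x
      by_cases hx : x = ⟨r, h⟩
      · rw [hx]
      · apply Adj.reachable
        rw [comap_adj]
        exact starGraph_center_adj (fun h' => hx (Subtype.ext h'.symm))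
    have : Nonempty S := ⟨⟨r, h⟩⟩
    exact ⟨fun x y => (hreach x).symm.trans (hreach y)⟩
  · have : Subsingleton ({a} : Set (Fin n)) := by
      rw [Set.subsingleton_coe]
      exact Set.subsingleton_singleton
    have : Nonempty ({a} : Set (Fin n)) := ⟨⟨a, rfl⟩⟩
    exact ⟨fun x y => by rw [Subsingleton.elim x y]⟩

lemma walk_of_induce {ι : Type} {T : SimpleGraph ι} {S : Set ι} :
    ∀ {a b : S} (_ : (T.induce S).Walk a b), ∃ R : T.Walk (a : ι) (b : ι), ∀ s ∈ R.support, s ∈ S
  | a, _, Walk.nil => ⟨Walk.nil, fun s hs => by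
      rw [Walk.support_nil, List.mem_singleton] at hs
      rw [hs]; exact a.2⟩
  | a, b, Walk.cons (v := c) h Q => by
    obtain ⟨R, hR⟩ := walk_of_induce Q
    refine ⟨Walk.cons (v := (c : ι)) (by simpa using h) R, ?_⟩
    intro s hs
    rw [Walk.support_cons, List.mem_cons] at hs
    rcases hs with rfl | hs
    · exact a.2
    · exact hR s hs

/-- the bags of the first decomposition -/
def B1 : Fin 6 → Finset (Fin 10) :=
  ![{0, 1, 2, 3, 4}, {4, 1, 5}, {0, 2, 6}, {1, 3, 7}, {2, 4, 8}, {3, 0, 9}]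

/-- the bags of the second decomposition -/
def B2 : Fin 3 → Finset (Fin 10) :=
  ![{1, 2, 3, 4, 6, 7, 8, 9}, {0, 1, 4, 6, 9}, {5, 1, 4}]

/-- the two-colourings of the bags of the second decomposition -/
def col : Fin 3 → Fin 10 → Fin 2 :=
  ![![0, 1, 0, 1, 0, 0, 1, 0, 1, 0], ![1, 0, 0, 0, 0, 0, 0, 0, 0, 0], ![0, 0, 0, 0, 0, 1, 0, 0, 0, 0]]

lemma edge1 : ∀ u v : Fin 10, e u v = true → ∃ i, u ∈ B1 i ∧ v ∈ B1 i := by decide +kernel

lemma edge2 : ∀ u v : Fin 10, e u v = true → ∃ i, u ∈ B2 i ∧ v ∈ B2 i := by decide +kernel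

lemma conn1 : ∀ v : Fin 10, v ∈ B1 0 ∨ ∃ a, ∀ i, v ∈ B1 i ↔ i = a := by decide +kernel

lemma conn2 : ∀ v : Fin 10, v ∈ B2 0 ∨ ∃ a, ∀ i, v ∈ B2 i ↔ i = a := by decide +kernel

lemma alpha1 : ∀ i : Fin 6, ∀ S ∈ (B1 i).powerset,
    (∀ a ∈ S, ∀ b ∈ S, a ≠ b → ¬ e a b = true) → S.card ≤ 2 := by decide +kernel

lemma chi2 : ∀ i : Fin 3, ∀ a ∈ B2 i, ∀ b ∈ B2 i, e a b = true → col i a ≠ col i b := by
  decide +kernel

/-- the members of the bramble -/
def M (k : Fin 5) : Finset (Fin 10) :=
  ![{0, 6}, {1, 7}, {2, 8}, {3, 9}, {4, 5}] k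

lemma M_conn : ∀ k : Fin 5, ∀ a ∈ M k, ∀ b ∈ M k, a = b ∨ e a b = true := by decide +kernel

lemma M_touch : ∀ k l : Fin 5, ∃ a ∈ M k, ∃ b ∈ M l, e a b = true := by decide +kernel

lemma M_disj : ∀ k l : Fin 5, ∀ a, a ∈ M k → a ∈ M l → k = l := by decide +kernel

/-- The negation of the preceding statement: For every finite graph G and all a, k: if G has a tree decomposition whose bags all have independence number at most a, and one whose bags all induce k-colorable subgraphs, then G has a tree decomposition with all bags of size at most a·k. -/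
theorem result :
    ¬ (∀ (V : Type) [Fintype V] (G : SimpleGraph V) (a k : ℕ),
      (∃ (n : ℕ) (T : SimpleGraph (Fin n)) (B : Fin n → Finset V),
        T.IsTree ∧
        (∀ u v : V, G.Adj u v → ∃ i, u ∈ B i ∧ v ∈ B i) ∧
        (∀ v : V, (T.induce {i : Fin n | v ∈ B i}).Connected) ∧
        (∀ i : Fin n, ∀ S : Finset V, S ⊆ B i → G.IsIndepSet (S : Set V) → S.card ≤ a)) →
      (∃ (n : ℕ) (T : SimpleGraph (Fin n)) (B : Fin n → Finset V),
        T.IsTree ∧
        (∀ u v : V, G.Adj u v → ∃ i, u ∈ B i ∧ v ∈ B i) ∧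
        (∀ v : V, (T.induce {i : Fin n | v ∈ B i}).Connected) ∧
        (∀ i : Fin n, (G.induce (B i : Set V)).Colorable k)) →
      (∃ (n : ℕ) (T : SimpleGraph (Fin n)) (B : Fin n → Finset V),
        T.IsTree ∧
        (∀ u v : V, G.Adj u v → ∃ i, u ∈ B i ∧ v ∈ B i) ∧
        (∀ v : V, (T.induce {i : Fin n | v ∈ B i}).Connected) ∧
        (∀ i : Fin n, (B i).card ≤ a * k))) := by
  intro hall
  obtain ⟨n, T, B, hT, he, hv, hcard⟩ := hall (Fin 10) Pool.Agent.S11612.G 2 2
    ⟨6, starGraph 0, B1, isTree_starGraph 0, fun u v h => edge1 u v h, fun v => by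
        refine star_conn 0 _ ?_
        rcases conn1 v with h | ⟨a, ha⟩
        · exact Or.inl h
        · exact Or.inr ⟨a, Set.ext fun i => ha i⟩,
      fun i S hS hind => alpha1 i S (Finset.mem_powerset.2 hS)
        fun a ha b hb hab => hind (Finset.mem_coe.2 ha) (Finset.mem_coe.2 hb) hab⟩
    ⟨3, starGraph 0, B2, isTree_starGraph 0, fun u v h => edge2 u v h, fun v => by
        refine star_conn 0 _ ?_
        rcases conn2 v with h | ⟨a, ha⟩
        · exact Or.inl h
        · exact Or.inr ⟨a, Set.ext fun i => ha i⟩,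
      fun i => ⟨SimpleGraph.Coloring.mk (fun x => col i x.1)
        (fun {x y} h => chi2 i x.1 (Finset.mem_coe.1 x.2) y.1 (Finset.mem_coe.1 y.2) h)⟩⟩
  have hv' : ∀ (v : Fin 10) (i j : Fin n), v ∈ B i → v ∈ B j →
      ∃ q : T.Walk i j, ∀ x ∈ q.support, v ∈ B x := by
    intro v i j hi hj
    obtain ⟨q⟩ := (hv v).preconnected ⟨i, hi⟩ ⟨j, hj⟩
    exact walk_of_induce q
  have hW : ∀ k : Fin 5, WConn Pool.Agent.S11612.G {x | x ∈ M k} := by
    intro k a ha b hb
    rcases M_conn k a ha b hb with rfl | h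
    · exact ⟨Walk.nil, fun x hx => by
        rw [Walk.support_nil, List.mem_singleton] at hx
        rw [hx]
        exact ha⟩
    · refine ⟨Walk.cons (show Pool.Agent.S11612.G.Adj a b from h) Walk.nil, fun x hx => ?_⟩
      rw [Walk.support_cons, Walk.support_nil] at hx
      simp only [List.mem_cons, List.not_mem_nil, or_false] at hx
      rcases hx with rfl | rfl
      · exact ha
      · exact hb
  obtain ⟨i, hi⟩ := helly hT (fun k : Fin 5 => {i | ∃ v ∈ {x | x ∈ M k}, v ∈ B i})
    (fun k => trace_conn he hv' (hW k)) (by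
      intro k l
      obtain ⟨a, ha, b, hb, hab⟩ := M_touch k l
      obtain ⟨i, h1, h2⟩ := he a b hab
      exact ⟨i, ⟨a, ha, h1⟩, ⟨b, hb, h2⟩⟩)
  choose f hf hfB using hi
  have hinj : Function.Injective f := fun k l hkl => M_disj k l (f k) (hf k) (hkl ▸ hf l)
  have h5 : (Finset.univ.image f).card = 5 := by
    rw [Finset.card_image_of_injective _ hinj, Finset.card_univ, Fintype.card_fin]
  have hsub : Finset.univ.image f ⊆ B i := by
    intro x hx
    rw [Finset.mem_image] at hx
    obtain ⟨k, -, rfl⟩ := hx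
    exact hfB k
  have := Finset.card_le_card hsub
  have := hcard i
  omega

end Pool.Agent.S11612
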