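import Pool.Statements.S14484
import Pool.Agent.P8H91.Build

set_option autoImplicit false
open FirstOrder FirstOrder.Language
open scoped Classical
open Pool Pool.MP_241a35_lc

namespace Pool.Agent.S14484

open Pool.Agent.Helper446 Pool.Agent.Helper446.Defs Pool.Agent.Helper446.Oracle
open Pool.Agent.Y545.HM Pool.Agent.P8H91.Tr Pool.Agent.P8H91.Star Pool.Agent.P8H91.Dec
open Pool.Agent.P8H91.Cls Pool.Agent.P8H91.Build Pool.Agent.P8H91.Sep

/-- The graph of a function as a set of numbers. -/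
def GS (D : ℕ → ℕ) : Set ℕ := {n | D n.unpair.1 = n.unpair.2}

theorem gr_gs (D : ℕ → ℕ) : Gr (GS D) D := by
  refine (REIn.mem (A := GS D) (f := fun x : ℕ × ℕ => Nat.pair x.1 x.2) (by fun_prop)).of_eq
    fun x => ?_
  show D (Nat.pair x.1 x.2).unpair.1 = (Nat.pair x.1 x.2).unpair.2 ↔ _
  rw [Nat.unpair_pair]

theorem gs_le (D : ℕ → ℕ) : TuringReducible (chi (GS D)) (PFun.lift D) := by
  rw [TuringReducible, RecursiveIn.iff_nat]
  have h1 : Nat.RecursiveIn {(PFun.lift D : ℕ →. ℕ)} (PFun.lift D : ℕ →. ℕ) :=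
    Nat.RecursiveIn.oracle _ rfl
  have hF : Computable fun m : ℕ => if m.unpair.1 = m.unpair.2 then 1 else 0 :=
    RE.cite (RE.cp_eq (by fun_prop) (by fun_prop)) (by fun_prop) (by fun_prop)
  have h2 : Nat.RecursiveIn {(PFun.lift D : ℕ →. ℕ)}
      (fun m : ℕ => Part.some (if m.unpair.1 = m.unpair.2 then 1 else 0)) :=
    Nat.Partrec.recursiveIn (Partrec.nat_iff.1 hF)
  have h5 : Nat.RecursiveIn {(PFun.lift D : ℕ →. ℕ)} (fun m : ℕ => Part.some m.unpair.1) :=
    Nat.Partrec.recursiveIn (Partrec.nat_iff.1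
      (show Computable fun m : ℕ => m.unpair.1 by fun_prop))
  have h6 : Nat.RecursiveIn {(PFun.lift D : ℕ →. ℕ)} (fun m : ℕ => Part.some m.unpair.2) :=
    Nat.Partrec.recursiveIn (Partrec.nat_iff.1
      (show Computable fun m : ℕ => m.unpair.2 by fun_prop))
  have h3 := Nat.RecursiveIn.comp h2 (Nat.RecursiveIn.pair (Nat.RecursiveIn.comp h1 h5) h6)
  refine h3.of_eq fun n => ?_
  have h4 : (PFun.lift D : ℕ →. ℕ) = fun n => Part.some (D n) := rfl
  simp only [h4, Seq.seq, Part.map_eq_map, Part.bind_eq_bind, Part.bind_some, Part.map_some,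
    Nat.unpair_pair]
  unfold chi chiN GS
  congr 1
  by_cases h7 : D n.unpair.1 = n.unpair.2
  · rw [if_pos h7, if_pos (show n ∈ {n : ℕ | D n.unpair.1 = n.unpair.2} from h7)]
  · rw [if_neg h7, if_neg (show ¬ n ∈ {n : ℕ | D n.unpair.1 = n.unpair.2} from h7)]

/-- The negation of the preceding statement: There is a countable nonstandard model of true arithmetic, presented on ℕ, whose diagram computes every arithmetical set, and every degree below it that computes all arithmetical sets is equivalent to it. -/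
theorem result :
    ¬ (∀ Std : (Language.mk (fun _ => Empty) (fun a => Fin (if a = 3 then 2 else 0))).Structure ℕ,
      (∀ (n : ℕ)
        (r : (Language.mk (fun _ => Empty) (fun a => Fin (if a = 3 then 2 else 0))).Relations n)
        (xs : Fin n → ℕ),
          Structure.RelMap r xs ↔
            ∃ i j k : Fin n, i.val = 0 ∧ j.val = 1 ∧ k.val = 2 ∧
              ((Fin.val r = 0 ∧ xs i + xs j = xs k) ∨ (Fin.val r = 1 ∧ xs i * xs j = xs k))) →
      ∃ (M : Type)
        (A : (Language.mk (fun _ => Empty) (fun a => Fin (if a = 3 then 2 else 0))).Structure M)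
        (e : M ≃ ℕ) (p q : M → M → M) (D : ℕ → ℕ),
        (∀ (n : ℕ)
          (r : (Language.mk (fun _ => Empty) (fun a => Fin (if a = 3 then 2 else 0))).Relations n)
          (xs : Fin n → M),
            Structure.RelMap r xs ↔
              ∃ i j k : Fin n, i.val = 0 ∧ j.val = 1 ∧ k.val = 2 ∧
                ((Fin.val r = 0 ∧ p (xs i) (xs j) = xs k) ∨ (Fin.val r = 1 ∧ q (xs i) (xs j) = xs k))) ∧
        D = (fun m : ℕ => Nat.pair (e (p (e.symm m.unpair.1) (e.symm m.unpair.2)))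
                (e (q (e.symm m.unpair.1) (e.symm m.unpair.2)))) ∧
        (Language.mk (fun _ => Empty) (fun a => Fin (if a = 3 then 2 else 0))).ElementarilyEquivalent M ℕ ∧
        IsEmpty ((Language.mk (fun _ => Empty) (fun a => Fin (if a = 3 then 2 else 0))).Equiv M ℕ) ∧
        (∀ S : Set ℕ,
          (∅ : Set ℕ).Definable (Language.mk (fun _ => Empty) (fun a => Fin (if a = 3 then 2 else 0)))
            {v : Fin 1 → ℕ | v 0 ∈ S} →
          TuringReducible (PFun.lift (fun m : ℕ => if m ∈ S then 1 else 0)) (PFun.lift D)) ∧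
        (∀ g : ℕ → ℕ,
          TuringReducible (PFun.lift g) (PFun.lift D) →
          (∀ S : Set ℕ,
            (∅ : Set ℕ).Definable (Language.mk (fun _ => Empty) (fun a => Fin (if a = 3 then 2 else 0)))
              {v : Fin 1 → ℕ | v 0 ∈ S} →
            TuringReducible (PFun.lift (fun m : ℕ => if m ∈ S then 1 else 0)) (PFun.lift g)) →
          TuringReducible (PFun.lift D) (PFun.lift g))) := by
  intro h
  let Std : LL.Structure ℕ :=
    { funMap := fun {_} f _ => f.elim
      RelMap := fun {n} r xs => ∃ i j k : Fin n, i.val = 0 ∧ j.val = 1 ∧ k.val = 2 ∧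
        ((Fin.val r = 0 ∧ xs i + xs j = xs k) ∨ (Fin.val r = 1 ∧ xs i * xs j = xs k)) }
  have hN : @Ar ℕ Std (fun a b => a + b) (fun a b => a * b) := fun n r xs => Iff.rfl
  obtain ⟨M, A, e, p, q, D, hM, hD, hMN, hne, -, hmin⟩ := h Std (fun n r xs => Iff.rfl)
  have hDp : ∀ x : ℕ × ℕ, (D (Nat.pair x.1 x.2)).unpair.1 = e (p (e.symm x.1) (e.symm x.2)) := by
    intro x
    rw [hD]
    simp only [Nat.unpair_pair]
  have hDq : ∀ x : ℕ × ℕ, (D (Nat.pair x.1 x.2)).unpair.2 = e (q (e.symm x.1) (e.symm x.2)) := by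
    intro x
    rw [hD]
    simp only [Nat.unpair_pair]
  have hDG := gr_gs D
  have hP : Gr (GS D) fun x : ℕ × ℕ => e (p (e.symm x.1) (e.symm x.2)) :=
    (Gr.post (g := fun n : ℕ => n.unpair.1) (by fun_prop)
      (hDG.pre (g := fun x : ℕ × ℕ => Nat.pair x.1 x.2) (by fun_prop))).of_eq hDp
  have hQ : Gr (GS D) fun x : ℕ × ℕ => e (q (e.symm x.1) (e.symm x.2)) :=
    (Gr.post (g := fun n : ℕ => n.unpair.2) (by fun_prop)
      (hDG.pre (g := fun x : ℕ × ℕ => Nat.pair x.1 x.2) (by fun_prop))).of_eq hDq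
  obtain ⟨Y, hY, hYG, hYS⟩ := build hN hM hMN hne e hP hQ
  have hY1 : REIn (GS D) fun n : ℕ => Y n = true :=
    REIn.comp hYG (f := fun n : ℕ => (n, true)) (by fun_prop)
  have hY0 : REIn (GS D) fun n : ℕ => Y n = false :=
    REIn.comp hYG (f := fun n : ℕ => (n, false)) (by fun_prop)
  let AB : Set ℕ := {q : ℕ | q.unpair.1 ≠ 0 ∧ Y q = true}
  have hAB : TuringReducible (chi AB) (chi (GS D)) := by
    refine turingReducible_iff.2 ⟨?_, ?_⟩
    · refine (REIn.and (S := fun q : ℕ => q.unpair.1 ≠ 0) (REIn.of_re (RE.ne (by fun_prop)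
        (by fun_prop))) hY1).of_eq fun q => Iff.rfl
    · refine (REIn.or (S := fun q : ℕ => q.unpair.1 = 0) (REIn.of_re (RE.eq (by fun_prop)
        (by fun_prop))) hY0).of_eq fun q => ?_
      show _ ↔ ¬ (q.unpair.1 ≠ 0 ∧ Y q = true)
      rw [not_and_or, not_not, Bool.not_eq_true]
  have hg : (PFun.lift (chiN AB) : ℕ →. ℕ) = chi AB := rfl
  have h1 := hmin (chiN AB) (by rw [hg]; exact hAB.trans (gs_le D)) (by
    intro S hS
    have hSA : @Arith Std (fun n => n ∈ S) := by
      rw [Set.empty_definable_iff] at hS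
      obtain ⟨φ, hφ⟩ := hS
      refine ⟨φ.relabel (fun _ => ()), fun v => ?_⟩
      rw [Formula.realize_relabel]
      show _ ↔ v () ∈ S
      have h2 : (v ∘ fun _ => () : Fin 1 → ℕ) ∈ {v : Fin 1 → ℕ | v 0 ∈ S} ↔ v () ∈ S := Iff.rfl
      rw [← h2, hφ]
      rfl
    obtain ⟨i, r, hir⟩ := hYS _ hSA
    have hS' : (PFun.lift (fun m : ℕ => if m ∈ S then 1 else 0) : ℕ →. ℕ) = chi S := rfl
    rw [hS', hg]
    have hmem : ∀ k, k ∈ S ↔ Nat.pair (i + 1) (Nat.pair r k) ∈ AB := by
      intro k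
      rw [hir k]
      show _ ↔ (_ ∧ _)
      rw [Nat.unpair_pair]
      simp
    refine turingReducible_iff.2 ⟨?_, ?_⟩
    · exact (REIn.mem (A := AB) (f := fun k : ℕ => Nat.pair (i + 1) (Nat.pair r k))
        (by fun_prop)).of_eq fun k => (hmem k).symm
    · exact (REIn.not_mem (A := AB) (f := fun k : ℕ => Nat.pair (i + 1) (Nat.pair r k))
        (by fun_prop)).of_eq fun k => not_congr (hmem k).symm)
  rw [hg] at h1
  have h2 : TuringReducible (chi {q : ℕ | Y q = true}) (chi (GS D)) := by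
    refine turingReducible_iff.2 ⟨hY1, ?_⟩
    refine hY0.of_eq fun q => ?_
    show _ ↔ ¬ (Y q = true)
    rw [Bool.not_eq_true]
  have h3 := turingReducible_iff.1 (h2.trans ((gs_le D).trans h1))
  refine sep hY h3.1 (h3.2.of_eq fun q => ?_)
  show ¬ (Y q = true) ↔ _
  rw [Bool.not_eq_true]

end Pool.Agent.S14484
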