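import Pool.Statements.S14780
import Pool.Agent.TH54.BU.Iter
import Pool.Agent.P8H89.BurnMon

set_option autoImplicit false
open Pool Pool.MP_604f1e_lc

namespace Pool.Agent.S14780

/-- The negation of the preceding statement: For every finite alphabet, all positive n and m, and every word w, the set of words congruent to w under the monoid congruence generated by x^n ~ x^(n+m) is accepted by some finite automaton.

The counterexample: `n = 1`, `m` a large prime, two letters. The free Burnside group of rank two and
exponent `m` is infinite, and the element `(a b) ^ m` of the monoid is the identity of a group which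
maps onto it; its class is not regular. -/
theorem result :
    ¬ (∀ (A : Type) [Fintype A] (n m : ℕ), 0 < n → 0 < m →
      ∀ w : FreeMonoid A,
        ∃ (σ : Type) (_ : Fintype σ) (M : DFA A σ),
          M.accepts =
            {v : List A |
              conGen (fun a b : FreeMonoid A => ∃ x : FreeMonoid A, a = x ^ n ∧ b = x ^ (n + m))
                (FreeMonoid.ofList v) w}) := by
  intro H
  obtain ⟨p0, hb⟩ := Pool.Agent.TH54.BU.burnside
  obtain ⟨p, hp0, hp⟩ := Nat.exists_infinite_primes p0
  have hinf := (hb p hp hp0).infinite hp
  have hfin := Pool.Agent.P8H89.BurnMon.finite_of_regular (p := p) hp.one_le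
    (H (Fin 2) 1 p one_pos hp.pos)
  exact not_finite_iff_infinite.2 hinf hfin

end Pool.Agent.S14780
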