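import Pool.Statements.S17475
import Pool.Agent.P8H19.AGP.Main

set_option autoImplicit false
open Pool Pool.MP_773b62_nt

namespace Pool.Agent.S17475

/-- For every ε>0 there are arbitrarily large composite n such that the number of residues a mod n with a^(n-1) ≡ 1 mod n exceeds (1-ε)n, i.e. the limsup over composites of F(n)/n equals 1. -/
theorem result :
    ∀ ε : ℝ, 0 < ε → ∀ N : ℕ, ∃ n : ℕ, N < n ∧ 1 < n ∧ ¬ Nat.Prime n ∧
      (1 - ε) * (n : ℝ) <
        (((Finset.range n).filter (fun a => a ^ (n - 1) ≡ 1 [MOD n])).card : ℝ) := by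
  intro ε hε N
  obtain ⟨T, h1, h2, h3, h4⟩ := Pool.Agent.P8H19.AGP.main ε hε N
  have hp : ∀ p ∈ T, p.Prime := fun p hp => (h1 p hp).1
  obtain ⟨n, hn⟩ : ∃ n, n = ∏ p ∈ T, p := ⟨_, rfl⟩
  have hn0 : 0 < n := by rw [hn]; exact Finset.prod_pos fun p hpT => (hp p hpT).pos
  obtain ⟨p, hpT⟩ : T.Nonempty := Finset.card_pos.1 (by omega)
  have hpn : p ≤ n := Nat.le_of_dvd hn0 (by rw [hn]; exact Finset.dvd_prod_of_mem _ hpT)
  have hpN := (h1 p hpT).2
  have hp2 := (hp p hpT).two_le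
  refine ⟨n, by omega, by omega, ?_, ?_⟩
  · intro hnp
    have e := Nat.primeFactors_prod hp
    rw [← hn, Nat.Prime.primeFactors hnp] at e
    rw [← e, Finset.card_singleton] at h2
    omega
  · have h5 := Pool.Agent.P8H19.AGP.liars hp h4
    have h6 := Pool.Agent.P8H19.AGP.totient_ge hp
    rw [← hn] at h5 h6
    have h7 : (n.totient : ℝ) ≤
        (((Finset.range n).filter (fun a => a ^ (n - 1) ≡ 1 [MOD n])).card : ℝ) := by
      exact_mod_cast h5
    have hnR : (0 : ℝ) < n := by exact_mod_cast hn0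
    have h8 : (1 - ε) * (n : ℝ) < (n : ℝ) * (1 - ∑ p ∈ T, (1 : ℝ) / p) := by nlinarith
    linarith

end Pool.Agent.S17475
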